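import Pool.Agent.D0H10.RP.Stm

/-! # The bound for all large indices -/

set_option autoImplicit false

open scoped Classical

namespace Pool.Agent.D0H10.RP

open MeasureTheory ProbabilityTheory Finset Filter
open Pool.Agent.D0H10.PS

lemma Bnd_mono {Ω : Type} [MeasurableSpace Ω] {P : Measure Ω} {ξ : ℕ → Ω → ZMod 2}
    {c : ℕ → (ℕ → ZMod 2) → ZMod 2} {n : ℕ} {β β' : ℝ} (h : Bnd P ξ c n β) (hb : β ≤ β') :
    Bnd P ξ c n β' := fun T h1 h2 => (h T h1 h2).trans hb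

lemma ev_est (η C K : ℝ) (hη : η < 1) (hC : 0 < C) :
    ∀ᶠ n : ℕ in atTop, K * Real.log n ≤ (n : ℝ) ^ (-η) * (C * n / Real.log n ^ 2) := by
  have h1 : (fun x : ℝ => Real.log x ^ (3 : ℝ)) =o[atTop] fun x => x ^ (1 - η) :=
    isLittleO_log_rpow_rpow_atTop 3 (by linarith)
  have h2 := h1.bound (show 0 < C / (|K| + 1) by positivity)
  have h3 := (tendsto_natCast_atTop_atTop (R := ℝ)).eventually h2
  have h4 := (Real.tendsto_log_atTop.comp
    (tendsto_natCast_atTop_atTop (R := ℝ))).eventually_ge_atTop 1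
  filter_upwards [h3, h4, eventually_ge_atTop 1] with n h3 h4 h5
  have h4' : 1 ≤ Real.log n := h4
  have h6 : (1 : ℝ) ≤ n := by exact_mod_cast h5
  have h7 : 0 ≤ (n : ℝ) ^ (1 - η) := by positivity
  rw [Real.norm_of_nonneg (by positivity), Real.norm_of_nonneg h7,
    show (3 : ℝ) = ((3 : ℕ) : ℝ) by norm_num, Real.rpow_natCast] at h3
  have h8 : (n : ℝ) ^ (1 - η) = (n : ℝ) ^ (-η) * n := by
    rw [sub_eq_neg_add, Real.rpow_add (by linarith), Real.rpow_one]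
  have h9 : K * Real.log n ^ 3 ≤ C * (n : ℝ) ^ (1 - η) := by
    calc K * Real.log n ^ 3 ≤ (|K| + 1) * Real.log n ^ 3 := by
          have := le_abs_self K
          gcongr
          linarith
      _ ≤ (|K| + 1) * (C / (|K| + 1) * (n : ℝ) ^ (1 - η)) := by gcongr
      _ = C * (n : ℝ) ^ (1 - η) := by field_simp
  have h10 : (n : ℝ) ^ (-η) * (C * n / Real.log n ^ 2) = C * (n : ℝ) ^ (1 - η) / Real.log n ^ 2 := by
    rw [h8]; ring
  rw [h10, le_div_iff₀ (by positivity)]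
  calc K * Real.log n * Real.log n ^ 2 = K * Real.log n ^ 3 := by ring
    _ ≤ _ := h9

lemma prod_exp (𝒜 : Finset ℕ) (f : ℕ → ℝ) (t : ℝ) (h : ∀ a ∈ 𝒜, 0 ≤ f a ∧ f a ≤ 1 - t) :
    ∏ a ∈ 𝒜, f a ≤ Real.exp (-(t * 𝒜.card)) := by
  calc ∏ a ∈ 𝒜, f a ≤ ∏ _a ∈ 𝒜, Real.exp (-t) := by
        refine prod_le_prod (fun a ha => (h a ha).1) fun a ha => (h a ha).2.trans ?_
        have := Real.add_one_le_exp (-t)
        linarith
    _ = Real.exp (-(t * 𝒜.card)) := by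
        rw [prod_const, ← Real.exp_nat_mul]
        congr 1
        ring

lemma exp_pow (n k : ℕ) (hn : 1 ≤ n) (x : ℝ) (h : (k : ℝ) * Real.log n ≤ x) :
    Real.exp (-x) ≤ 1 / (n : ℝ) ^ k := by
  have hn' : (0 : ℝ) < n := by exact_mod_cast hn
  calc Real.exp (-x) ≤ Real.exp (-((k : ℝ) * Real.log n)) := Real.exp_le_exp.2 (by linarith)
    _ = 1 / (n : ℝ) ^ k := by
      rw [Real.exp_neg, Real.exp_nat_mul, Real.exp_log hn', one_div]

lemma th_ge {θ : ℕ → ℝ} {δ : ℝ} {a₀ : ℕ} (hθ : ∀ a : ℕ, a₀ ≤ a → a.Prime → (a : ℝ) ^ (-δ) ≤ θ a)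
    {n a : ℕ} (h1 : a₀ ≤ a) (h2 : a.Prime) (h3 : a ≤ n) : (n : ℝ) ^ (-(max δ 0)) ≤ θ a := by
  have ha : (1 : ℝ) ≤ a := by exact_mod_cast h2.one_lt.le
  have hn : (a : ℝ) ≤ n := by exact_mod_cast h3
  calc (n : ℝ) ^ (-(max δ 0)) ≤ (a : ℝ) ^ (-(max δ 0)) :=
        Real.rpow_le_rpow_of_nonpos (by linarith) hn (by
          have := le_max_right δ 0
          linarith)
    _ ≤ (a : ℝ) ^ (-δ) := Real.rpow_le_rpow_of_exponent_le ha (by
          have := le_max_left δ 0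
          linarith)
    _ ≤ θ a := hθ a h1 h2

theorem t_BB (hL0 : S_L0) (hL1 : S_L1) (hNT : S_NT) : S_BB := by
  intro Ω _ P _ ξ θ δ hδ hP a₀ hθ
  obtain ⟨C, n₀, G, hC, hG, hodd, heven⟩ := hNT
  set δ' : ℝ := max δ 0 with hδ'
  have hd0 : 0 ≤ δ' := le_max_right _ _
  have hd1 : δ' < 1 / 2 := by
    rw [hδ', max_lt_iff]; exact ⟨hδ, by norm_num⟩
  -- the even numbers in G
  have hev1 := ev_est (2 * δ') (C / 2) 6 (by linarith) (by linarith)
  have hev2 := ev_est 0 (C / 2) (a₀ : ℝ) (by norm_num) (by linarith)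
  have hev3 := ev_est δ' C 6 (by linarith) hC
  have hlog := (Real.tendsto_log_atTop.comp
    (tendsto_natCast_atTop_atTop (R := ℝ))).eventually_ge_atTop 1
  obtain ⟨n₁, hn₁⟩ := eventually_atTop.1 (hev1.and (hev2.and (hev3.and hlog)))
  have key1 : ∀ n : ℕ, n₀ + n₁ + 2 * a₀ + 2 ≤ n → n ∈ G → ∀ c : ℕ → (ℕ → ZMod 2) → ZMod 2, Lin c →
      Bnd P ξ c n (1 / (n : ℝ) ^ 6) := by
    intro n hn hnG c hc
    obtain ⟨e1, e2, -, e4⟩ := hn₁ n (by omega)
    have e4' : 1 ≤ Real.log n := e4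
    have h1 := hG n hnG (by omega)
    have hb := hL0 Ω P ξ θ c hP hc n ((prs n).filter (fun a => a₀ ≤ n - a)) (by
      intro a ha
      rw [mem_filter, prs, mem_filter, mem_range] at ha
      exact ⟨ha.1.2.1, ha.1.1⟩)
    refine Bnd_mono hb ?_
    have h2 : (prs n).card ≤ ((prs n).filter (fun a => a₀ ≤ n - a)).card + a₀ := by
      have h3 := card_filter_add_card_filter_not (s := prs n) (fun a => a₀ ≤ n - a)
      have h4 : ((prs n).filter (fun a => ¬ a₀ ≤ n - a)).card ≤ a₀ := by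
        calc ((prs n).filter (fun a => ¬ a₀ ≤ n - a)).card ≤ (Ico (n + 1 - a₀) (n + 1)).card := by
              refine card_le_card fun a ha => ?_
              rw [mem_filter, prs, mem_filter, mem_range] at ha
              rw [mem_Ico]
              omega
          _ ≤ a₀ := by rw [Nat.card_Ico]; omega
      omega
    have h2' : ((prs n).card : ℝ) ≤ (((prs n).filter (fun a => a₀ ≤ n - a)).card : ℝ) + a₀ := by
      exact_mod_cast h2
    have h3 : C / 2 * n / Real.log n ^ 2 ≤ (((prs n).filter (fun a => a₀ ≤ n - a)).card : ℝ) := by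
      rw [neg_zero, Real.rpow_zero, one_mul] at e2
      have h5 : (a₀ : ℝ) ≤ a₀ * Real.log n := by
        have : (0 : ℝ) ≤ a₀ := Nat.cast_nonneg _
        nlinarith
      have h6 : C * (n : ℝ) / Real.log n ^ 2 = C / 2 * n / Real.log n ^ 2 +
          C / 2 * n / Real.log n ^ 2 := by ring
      linarith
    have hn1 : (1 : ℝ) ≤ n := by exact_mod_cast (by omega : 1 ≤ n)
    have h4 := prod_exp ((prs n).filter (fun a => a₀ ≤ n - a))
      (fun a => 1 - 2 * θ a * θ (n - a)) ((n : ℝ) ^ (-(2 * δ'))) (by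
        intro a ha
        rw [mem_filter, prs, mem_filter, mem_range] at ha
        obtain ⟨⟨g1, g2, g3, g4⟩, g5⟩ := ha
        have t1 := hP.nonneg a
        have t2 := hP.nonneg (n - a)
        have t3 : (n : ℝ) ^ (-δ') ≤ θ a := th_ge hθ (by omega) g3 (by omega)
        have t4 : (n : ℝ) ^ (-δ') ≤ θ (n - a) := th_ge hθ g5 g4 (by omega)
        have t5 : (n : ℝ) ^ (-(2 * δ')) = (n : ℝ) ^ (-δ') * (n : ℝ) ^ (-δ') := by
          rw [← Real.rpow_add (by linarith)]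
          congr 1
          ring
        have t6 : 0 ≤ (n : ℝ) ^ (-δ') := by positivity
        have t7 : (n : ℝ) ^ (-δ') * (n : ℝ) ^ (-δ') ≤ θ a * θ (n - a) :=
          mul_le_mul t3 t4 t6 t1.1
        have t8 : θ a * θ (n - a) ≤ 1 / 2 * (1 / 2) := mul_le_mul t1.2 t2.2 t2.1 (by norm_num)
        have t9 : 0 ≤ θ a * θ (n - a) := mul_nonneg t1.1 t2.1
        constructor
        · nlinarith
        · rw [t5]; nlinarith)
    refine h4.trans (exp_pow n 6 (by omega) _ ?_)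
    calc ((6 : ℕ) : ℝ) * Real.log n = 6 * Real.log n := by norm_num
      _ ≤ (n : ℝ) ^ (-(2 * δ')) * (C / 2 * n / Real.log n ^ 2) := e1
      _ ≤ _ := by gcongr
  -- a step
  have step : ∀ (n k : ℕ) (𝒜 : Finset ℕ) (c : ℕ → (ℕ → ZMod 2) → ZMod 2), Lin c → k ≤ 6 →
      n₁ + 2 * a₀ + 2 ≤ n →
      (∀ a ∈ 𝒜, n < 2 * a ∧ a < n ∧ 10 * a ≤ 9 * n ∧ a.Prime) →
      (∀ a ∈ 𝒜, Bnd P ξ c (n - a) (1 / ((n - a : ℕ) : ℝ) ^ k)) →
      C * n / Real.log n ≤ (𝒜.card : ℝ) → Bnd P ξ c n ((10 ^ 6 + 1) / (n : ℝ) ^ k) := by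
    intro n k 𝒜 c hc hk hn hA hB hcard
    obtain ⟨-, -, e3, e4⟩ := hn₁ n (by omega)
    have e4' : 1 ≤ Real.log n := e4
    have hn1 : (1 : ℝ) ≤ n := by exact_mod_cast (by omega : 1 ≤ n)
    have hb := hL1 Ω P ξ θ c hP hc n 𝒜 (10 ^ 6 / (n : ℝ) ^ k) (by positivity)
      (fun a ha => ⟨(hA a ha).1, (hA a ha).2.1⟩) (fun a ha => Bnd_mono (hB a ha) (by
        obtain ⟨g1, g2, g3, g4⟩ := hA a ha
        have h1 : (n : ℝ) / 10 ≤ ((n - a : ℕ) : ℝ) := by
          have : n ≤ 10 * (n - a) := by omega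
          have : (n : ℝ) ≤ 10 * ((n - a : ℕ) : ℝ) := by exact_mod_cast this
          linarith
        calc 1 / ((n - a : ℕ) : ℝ) ^ k ≤ 1 / ((n : ℝ) / 10) ^ k := by gcongr
          _ = 10 ^ k / (n : ℝ) ^ k := by rw [div_pow, one_div_div]
          _ ≤ 10 ^ 6 / (n : ℝ) ^ k := by
            gcongr
            norm_num))
    refine Bnd_mono hb ?_
    have h4 := prod_exp 𝒜 (fun a => 1 - θ a) ((n : ℝ) ^ (-δ')) (by
      intro a ha
      obtain ⟨g1, g2, g3, g4⟩ := hA a ha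
      have t1 := hP.nonneg a
      have t3 : (n : ℝ) ^ (-δ') ≤ θ a := th_ge hθ (by omega) g4 (by omega)
      exact ⟨by linarith, by linarith⟩)
    have h5 : Real.exp (-((n : ℝ) ^ (-δ') * 𝒜.card)) ≤ 1 / (n : ℝ) ^ k := by
      refine exp_pow n k (by omega) _ ?_
      have hk' : (k : ℝ) ≤ 6 := by exact_mod_cast hk
      calc (k : ℝ) * Real.log n ≤ 6 * Real.log n := by gcongr
        _ ≤ (n : ℝ) ^ (-δ') * (C * n / Real.log n ^ 2) := e3
        _ ≤ (n : ℝ) ^ (-δ') * (C * n / Real.log n) := by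
          gcongr
          nlinarith
        _ ≤ _ := by gcongr
    calc _ ≤ 1 / (n : ℝ) ^ k + 10 ^ 6 / (n : ℝ) ^ k := by
          have := h4.trans h5
          linarith
      _ = (10 ^ 6 + 1) / (n : ℝ) ^ k := by ring
  have low : ∀ (n k : ℕ), 10 ^ 6 + 1 ≤ n → (10 ^ 6 + 1) / (n : ℝ) ^ (k + 1) ≤ 1 / (n : ℝ) ^ k := by
    intro n k hn
    have h1 : ((10 : ℝ) ^ 6 + 1) ≤ n := by exact_mod_cast hn
    have h2 : (0 : ℝ) < n := by linarith
    rw [div_le_div_iff₀ (by positivity) (by positivity), pow_succ (n : ℝ) k]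
    have : 0 < (n : ℝ) ^ k := by positivity
    nlinarith
  have key2 : ∀ n : ℕ, 10 * (n₀ + n₁ + 2 * a₀ + 2) + 10 ^ 6 + 1 ≤ n → Odd n →
      ∀ c : ℕ → (ℕ → ZMod 2) → ZMod 2, Lin c → Bnd P ξ c n (1 / (n : ℝ) ^ 5) := by
    intro n hn ho c hc
    refine Bnd_mono (step n 6 ((range n).filter (fun a => n < 2 * a ∧ 10 * a ≤ 9 * n ∧ a.Prime ∧
      n - a ∈ G)) c hc le_rfl (by omega) ?_ ?_ (hodd n (by omega) ho)) (low n 5 (by omega))
    · intro a ha
      rw [mem_filter, mem_range] at ha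
      exact ⟨ha.2.1, ha.1, ha.2.2.1, ha.2.2.2.1⟩
    · intro a ha
      rw [mem_filter, mem_range] at ha
      exact key1 (n - a) (by omega) ha.2.2.2.2 c hc
  have key3 : ∀ n : ℕ, 100 * (n₀ + n₁ + 2 * a₀ + 2) + 10 ^ 8 ≤ n → Even n →
      ∀ c : ℕ → (ℕ → ZMod 2) → ZMod 2, Lin c → Bnd P ξ c n (1 / (n : ℝ) ^ 4) := by
    intro n hn ho c hc
    refine Bnd_mono (step n 5 ((range n).filter (fun a => n < 2 * a ∧ 10 * a ≤ 9 * n ∧ a.Prime ∧
      Odd (n - a))) c hc (by norm_num) (by omega) ?_ ?_ (heven n (by omega) ho)) (low n 4 (by omega))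
    · intro a ha
      rw [mem_filter, mem_range] at ha
      exact ⟨ha.2.1, ha.1, ha.2.2.1, ha.2.2.2.1⟩
    · intro a ha
      rw [mem_filter, mem_range] at ha
      exact key2 (n - a) (by omega) ha.2.2.2.2 c hc
  refine ⟨100 * (n₀ + n₁ + 2 * a₀ + 2) + 10 ^ 8, fun c hc n hn => ?_⟩
  have hn1 : (1 : ℝ) ≤ n := by exact_mod_cast (by omega : 1 ≤ n)
  rcases Nat.even_or_odd n with he | ho
  · exact Bnd_mono (key3 n hn he c hc) (one_div_le_one_div_of_le (by positivity)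
      (pow_le_pow_right₀ hn1 (by norm_num)))
  · exact Bnd_mono (key2 n (by omega) ho c hc) (one_div_le_one_div_of_le (by positivity)
      (pow_le_pow_right₀ hn1 (by norm_num)))

end Pool.Agent.D0H10.RP
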