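import Pool.Agent.D0H10.RP.Stm
import Pool.Agent.D0H10.PS.Basic

/-! # Conditioning on the bits up to `n / 2` -/

set_option autoImplicit false

open scoped Classical

namespace Pool.Agent.D0H10.RP

open MeasureTheory ProbabilityTheory Filter Finset
open Pool.Agent.D0H10.PS

/-- the coefficient of the bit at `a` -/
noncomputable def Cof (c : ℕ → (ℕ → ZMod 2) → ZMod 2) (T : Finset ℕ) (a : ℕ) (u : ℕ → ZMod 2) :
    ZMod 2 := ∑ t ∈ T.filter (a ≤ ·), c (t - a) u

/-- the factor -/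
noncomputable def fac (θ : ℕ → ℝ) (a : ℕ) (z : ZMod 2) : ℝ := if z = 1 then 1 - 2 * θ a else 1

variable {c : ℕ → (ℕ → ZMod 2) → ZMod 2}

lemma cut_loc (hL : Lin c) {x m : ℕ} (h : m < x) (u : ℕ → ZMod 2) : c m (cut x u) = c m u := by
  refine hL.loc m _ _ fun j hj => ?_
  unfold cut
  rw [if_pos (lt_of_le_of_lt hj h)]

lemma Cof_cut (hL : Lin c) {x n : ℕ} (T : Finset ℕ) (hT : ∀ t ∈ T, t ≤ n) {a : ℕ} (ha : n < x + a)
    (u : ℕ → ZMod 2) : Cof c T a (cut x u) = Cof c T a u := by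
  unfold Cof
  refine sum_congr rfl fun t ht => cut_loc hL ?_ u
  rw [mem_filter] at ht
  have := hT t ht.1
  omega

lemma sum_lin (hL : Lin c) {x n : ℕ} (T : Finset ℕ) (hT : ∀ t ∈ T, t ≤ n) (hnx : n < 2 * x)
    (u : ℕ → ZMod 2) :
    ∑ t ∈ T, c t u = ∑ t ∈ T, c t (cut x u) + ∑ i : Fin x, Cof c T (x + i) (cut x u) * u (x + i) := by
  have h1 : ∀ t ∈ T, c t u = c t (cut x u) +
      ∑ i : Fin x, if x + (i : ℕ) ≤ t then c (t - (x + i)) (cut x u) * u (x + i) else 0 := by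
    intro t ht
    have htn := hT t ht
    rcases Nat.lt_or_ge t x with h | h
    · rw [cut_loc hL h, sum_eq_zero, add_zero]
      intro i _
      rw [if_neg (by omega)]
    · rw [hL.lin x t u h (by omega)]
      congr 1
      rw [Fin.sum_univ_eq_sum_range
        (fun i => if x + i ≤ t then c (t - (x + i)) (cut x u) * u (x + i) else 0) x, ← sum_filter]
      symm
      refine sum_bij' (fun i _ => x + i) (fun a _ => a - x) ?_ ?_ ?_ ?_ ?_
      · intro i hi
        rw [mem_filter, mem_range] at hi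
        rw [mem_Icc]; omega
      · intro a ha
        rw [mem_Icc] at ha
        rw [mem_filter, mem_range]; omega
      · intro i _
        omega
      · intro a ha
        rw [mem_Icc] at ha
        omega
      · intro i hi
        rw [mem_filter, mem_range] at hi
        rw [cut_loc hL (show t - (x + i) < x by omega)]
  rw [sum_congr rfl h1, sum_add_distrib, sum_comm]
  congr 1
  refine sum_congr rfl fun i _ => ?_
  unfold Cof
  rw [sum_mul, sum_filter]

lemma sg_mul_zero (z : ZMod 2) : sg (z * 0) = 1 := by rw [mul_zero, sg_zero]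

lemma fac_le_one {Ω : Type} [MeasurableSpace Ω] {P : Measure Ω} {ξ : ℕ → Ω → ZMod 2} {θ : ℕ → ℝ}
    (hC : Coins P ξ θ) (a : ℕ) (z : ZMod 2) : 0 ≤ fac θ a z ∧ fac θ a z ≤ 1 := by
  obtain ⟨h1, h2⟩ := hC.nonneg a
  unfold fac
  split_ifs <;> constructor <;> linarith

lemma factor_le {Ω : Type} [MeasurableSpace Ω] {P : Measure Ω} {ξ : ℕ → Ω → ZMod 2} {θ : ℕ → ℝ}
    (hC : Coins P ξ θ) (a : ℕ) (z : ZMod 2) :
    |(1 - P.real {ω | ξ a ω = 1}) * 1 + P.real {ω | ξ a ω = 1} * sg z| ≤ fac θ a z := by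
  obtain ⟨h1, h2⟩ := hC.rate a
  obtain ⟨h3, h4⟩ := hC.nonneg a
  unfold fac
  rcases zmod2 z with rfl | rfl
  · rw [sg_zero, if_neg (by decide), abs_le]
    constructor <;> linarith
  · rw [sg_one, if_pos rfl, abs_le]
    constructor <;> linarith

theorem t_EXP (hfub : S_FUB) : S_EXP := by
  intro Ω _ P _ ξ θ c hC hL n T 𝒜 hn hT hA
  set x : ℕ := n / 2 + 1 with hx
  have hx0 : 0 < x := by omega
  have hnx : n < 2 * x := by omega
  set p : Fin x → ℝ := fun i => P.real {ω | ξ (x + i) ω = 1} with hp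
  set Φ : (ℕ → ZMod 2) → (Fin x → ZMod 2) → ℝ := fun u v =>
    sg (∑ t ∈ T, c t u) * ∏ i : Fin x, sg (Cof c T (x + i) u * v i) with hΦ
  have hA' : ∀ a ∈ 𝒜, x ≤ a ∧ a - x < x := by
    intro a ha
    have := hA a ha
    omega
  have key : ∀ ω, sg (∑ t ∈ T, c t (bits ξ ω)) = Φ (cut x (bits ξ ω)) (fun i => ξ (x + i) ω) := by
    intro ω
    rw [sum_lin hL T hT hnx, sg_add, sg_sum univ]
    rfl
  obtain ⟨i1, i2, i3⟩ := hfub Ω P ξ hC.meas hC.ind x Φ
  have hEx : ∀ u, Ex p (Φ u) = sg (∑ t ∈ T, c t u) *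
      ∏ i : Fin x, ((1 - p i) * 1 + p i * sg (Cof c T (x + i) u)) := by
    intro u
    simp only [hΦ]
    rw [Ex_mul, Ex_prod (fun (i : Fin x) z => sg (Cof c T (x + i) u * z))]
    congr 1
    refine prod_congr rfl fun i _ => ?_
    rw [sg_mul_zero]
    simp only [mul_one]
  have hprod : ∀ u, ∏ a ∈ 𝒜, fac θ a (Cof c T a u) =
      ∏ i : Fin x, if x + (i : ℕ) ∈ 𝒜 then fac θ (x + i) (Cof c T (x + i) u) else 1 := by
    intro u
    rw [Fin.prod_univ_eq_prod_range
      (fun i => if x + i ∈ 𝒜 then fac θ (x + i) (Cof c T (x + i) u) else 1) x, ← prod_filter]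
    refine prod_bij' (fun a _ => a - x) (fun i _ => x + i) ?_ ?_ ?_ ?_ ?_
    · intro a ha
      have := hA' a ha
      rw [mem_filter, mem_range, show x + (a - x) = a by omega]
      exact ⟨this.2, ha⟩
    · intro i hi
      rw [mem_filter] at hi
      exact hi.2
    · intro a ha
      have := hA' a ha
      omega
    · intro i _
      omega
    · intro a ha
      have := hA' a ha
      rw [show x + (a - x) = a by omega]
  have hle : ∀ u, |Ex p (Φ u)| ≤ ∏ a ∈ 𝒜, fac θ a (Cof c T a u) := by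
    intro u
    rw [hEx, abs_mul, abs_sg, one_mul, abs_prod, hprod]
    refine prod_le_prod (fun i _ => abs_nonneg _) fun i _ => ?_
    split_ifs with h
    · exact factor_le hC (x + i) _
    · exact (factor_le hC (x + i) _).trans (fac_le_one hC _ _).2
  have hcut : ∀ ω, ∏ a ∈ 𝒜, fac θ a (Cof c T a (cut x (bits ξ ω))) =
      ∏ a ∈ 𝒜, fac θ a (Cof c T a (bits ξ ω)) := by
    intro ω
    refine prod_congr rfl fun a ha => ?_
    have := hA a ha
    rw [Cof_cut hL T hT (by omega)]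
  have hint : Integrable (fun ω => ∏ a ∈ 𝒜, fac θ a (Cof c T a (bits ξ ω))) P := by
    have := (hfub Ω P ξ hC.meas hC.ind x (fun u _ => ∏ a ∈ 𝒜, fac θ a (Cof c T a u))).1
    refine this.congr (ae_of_all _ fun ω => ?_)
    simp only
    exact hcut ω
  have h1 : ∫ ω, sg (∑ t ∈ T, c t (bits ξ ω)) ∂P = ∫ ω, Ex p (Φ (cut x (bits ξ ω))) ∂P := by
    rw [← i3]
    exact integral_congr_ae (ae_of_all _ fun ω => key ω)
  change |∫ ω, sg (∑ t ∈ T, c t (bits ξ ω)) ∂P| ≤
    ∫ ω, ∏ a ∈ 𝒜, fac θ a (Cof c T a (bits ξ ω)) ∂P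
  rw [h1, ← Real.norm_eq_abs]
  refine norm_integral_le_of_norm_le hint (ae_of_all _ fun ω => ?_)
  rw [Real.norm_eq_abs, ← hcut ω]
  exact hle _

end Pool.Agent.D0H10.RP
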