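import Pool.Agent.D0H10.RP.L1

/-! # Integration over the bits at the places `n - a` -/

set_option autoImplicit false

open scoped Classical

namespace Pool.Agent.D0H10.RP

open MeasureTheory ProbabilityTheory Filter Finset
open Pool.Agent.D0H10.PS

/-- the expectation of a function of one coordinate -/
lemma Ex_one_coord {x : ℕ} (p : Fin x → ℝ) (i0 : Fin x) (h : ZMod 2 → ℝ) :
    Ex p (fun v => h (v i0)) = (1 - p i0) * h 0 + p i0 * h 1 := by
  have h1 := Ex_prod (p := p) (fun (i : Fin x) z => if i = i0 then h z else 1)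
  have h2 : (fun v : Fin x → ZMod 2 => ∏ i, if i = i0 then h (v i) else 1) =
      fun v => h (v i0) := by
    funext v
    rw [prod_ite_eq' univ i0 (fun i => h (v i)), if_pos (mem_univ _)]
  rw [h2] at h1
  rw [h1, prod_eq_single i0]
  · simp
  · intro i _ hi
    simp only [if_neg hi]
    ring
  · intro hi
    exact absurd (mem_univ _) hi

lemma mix_le {θa θd p : ℝ} (h0 : 0 ≤ θa) (hp : θd ≤ p ∧ p ≤ 1 - θd) (z : ZMod 2) (θ : ℕ → ℝ) (a : ℕ)
    (ha : θ a = θa) : (1 - p) * fac θ a (z + 0) + p * fac θ a (z + 1) ≤ 1 - 2 * θa * θd := by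
  subst ha
  unfold fac
  rcases zmod2 z with rfl | rfl
  · rw [if_neg (by decide), if_pos (by decide)]
    nlinarith [mul_le_mul_of_nonneg_left hp.1 h0]
  · rw [if_pos (by decide), if_neg (by decide)]
    have : θd ≤ 1 - p := by linarith [hp.2]
    nlinarith [mul_le_mul_of_nonneg_left this h0]

theorem t_L0 (hfub : S_FUB) (hexp : S_EXP) : S_L0 := by
  intro Ω _ P _ ξ θ c hC hL n 𝒜 hA T hn hT
  refine (hexp Ω P ξ θ c hC hL n T 𝒜 hn hT hA).trans ?_
  change ∫ ω, ∏ a ∈ 𝒜, fac θ a (Cof c T a (bits ξ ω)) ∂P ≤ _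
  induction 𝒜 using Finset.induction_on_min with
  | empty => simp
  | insert a s hs ih =>
    have ih' := ih fun b hb => hA b (mem_insert_of_mem hb)
    have hnot : a ∉ s := fun h => lt_irrefl _ (hs a h)
    obtain ⟨ha1, ha2⟩ := hA a (mem_insert_self _ _)
    obtain ⟨d, hd⟩ : ∃ d, d = n - a := ⟨_, rfl⟩
    have hd0 : 0 < d := by omega
    set R : (ℕ → ZMod 2) → ZMod 2 := fun u => c d (cut d u) +
      ∑ t ∈ (T.filter (a ≤ ·)).erase n, c (t - a) u with hR
    have hCof : ∀ u, Cof c T a u = R (cut d u) + u d := by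
      intro u
      unfold Cof
      have h1 : n ∈ T.filter (a ≤ ·) := mem_filter.2 ⟨hn, ha2.le⟩
      rw [← add_sum_erase _ _ h1, ← hd, hL.lin d d u le_rfl (by omega), Icc_self, sum_singleton,
        Nat.sub_self, hL.zero, one_mul]
      simp only [hR]
      have h2 : ∀ t ∈ (T.filter (a ≤ ·)).erase n, c (t - a) (cut d u) = c (t - a) u := by
        intro t ht
        rw [mem_erase, mem_filter] at ht
        have h3 := hT t ht.2.1
        refine cut_loc hL ?_ u
        omega
      have h4 : c d (cut d (cut d u)) = c d (cut d u) := by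
        congr 1
        funext j
        unfold cut
        split_ifs <;> rfl
      rw [sum_congr rfl h2, h4]
      ring
    have hcut : ∀ u, ∏ b ∈ s, fac θ b (Cof c T b (cut d u)) = ∏ b ∈ s, fac θ b (Cof c T b u) := by
      intro u
      refine prod_congr rfl fun b hb => ?_
      have h1 := hs b hb
      have h2 := hA b (mem_insert_of_mem hb)
      rw [Cof_cut hL T hT (by omega)]
    set Φ : (ℕ → ZMod 2) → (Fin d → ZMod 2) → ℝ := fun u v =>
      (∏ b ∈ s, fac θ b (Cof c T b u)) * fac θ a (R u + v ⟨0, hd0⟩) with hΦ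
    obtain ⟨-, i2, i3⟩ := hfub Ω P ξ hC.meas hC.ind d Φ
    have key : ∀ ω, ∏ b ∈ insert a s, fac θ b (Cof c T b (bits ξ ω)) =
        Φ (cut d (bits ξ ω)) (fun i => ξ (d + i) ω) := by
      intro ω
      rw [prod_insert hnot, hCof, mul_comm]
      simp only [hΦ]
      rw [hcut]
      rfl
    have h1 : ∫ ω, ∏ b ∈ insert a s, fac θ b (Cof c T b (bits ξ ω)) ∂P =
        ∫ ω, Ex (fun i : Fin d => P.real {ω | ξ (d + i) ω = 1}) (Φ (cut d (bits ξ ω))) ∂P := by
      rw [← i3]
      exact integral_congr_ae (ae_of_all _ fun ω => key ω)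
    have hint : Integrable (fun ω => ∏ b ∈ s, fac θ b (Cof c T b (bits ξ ω))) P :=
      int_of hfub hC.meas hC.ind (fun u => ∏ b ∈ s, fac θ b (Cof c T b u)) d hcut
    have h2 : ∀ ω, Ex (fun i : Fin d => P.real {ω | ξ (d + i) ω = 1}) (Φ (cut d (bits ξ ω))) ≤
        (1 - 2 * θ a * θ d) * ∏ b ∈ s, fac θ b (Cof c T b (bits ξ ω)) := by
      intro ω
      simp only [hΦ]
      rw [Ex_mul, hcut, mul_comm, Ex_one_coord _ ⟨0, hd0⟩
        (fun z => fac θ a (R (cut d (bits ξ ω)) + z))]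
      refine mul_le_mul_of_nonneg_right ?_ (prod_nonneg fun b _ => (fac_le_one hC b _).1)
      exact mix_le (hC.nonneg a).1 (hC.rate d) _ θ a rfl
    rw [h1, prod_insert hnot, ← hd]
    have h3 : 0 ≤ 1 - 2 * θ a * θ d := by
      have := hC.nonneg a
      have := hC.nonneg d
      nlinarith
    calc ∫ ω, Ex (fun i : Fin d => P.real {ω | ξ (d + i) ω = 1}) (Φ (cut d (bits ξ ω))) ∂P ≤
        ∫ ω, (1 - 2 * θ a * θ d) * ∏ b ∈ s, fac θ b (Cof c T b (bits ξ ω)) ∂P :=
          integral_mono i2 (hint.const_mul _) h2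
      _ = (1 - 2 * θ a * θ d) * ∫ ω, ∏ b ∈ s, fac θ b (Cof c T b (bits ξ ω)) ∂P :=
          integral_const_mul _ _
      _ ≤ _ := mul_le_mul_of_nonneg_left ih' h3

end Pool.Agent.D0H10.RP
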