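import Pool.Agent.D0H10.RP.Exp

/-! # The expansion of the product -/

set_option autoImplicit false

open scoped Classical

namespace Pool.Agent.D0H10.RP

open MeasureTheory ProbabilityTheory Filter Finset
open Pool.Agent.D0H10.PS

variable {c : ℕ → (ℕ → ZMod 2) → ZMod 2}

/-- a function of the bits below `x` is integrable -/
lemma int_of {Ω : Type} [MeasurableSpace Ω] {P : Measure Ω} [IsProbabilityMeasure P]
    {ξ : ℕ → Ω → ZMod 2} (hfub : S_FUB) (hm : ∀ a, Measurable (ξ a)) (hi : iIndepFun ξ P)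
    (F : (ℕ → ZMod 2) → ℝ) (x : ℕ) (hF : ∀ u, F (cut x u) = F u) :
    Integrable (fun ω => F (bits ξ ω)) P := by
  refine ((hfub Ω P ξ hm hi x (fun u _ => F u)).1).congr (ae_of_all _ fun ω => ?_)
  exact hF _

/-- a sum with multiplicities modulo 2 is a sum over a set -/
lemma pairs_sum {n : ℕ} (S T : Finset ℕ) (hne : S.Nonempty) (hn : n ∈ T) (hT : ∀ t ∈ T, t ≤ n)
    (hS : ∀ a ∈ S, a ≤ n) :
    ∃ T' : Finset ℕ, n - S.min' hne ∈ T' ∧ (∀ j ∈ T', j ≤ n - S.min' hne) ∧
      ∀ (c : ℕ → (ℕ → ZMod 2) → ZMod 2) (u : ℕ → ZMod 2),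
        ∑ a ∈ S, Cof c T a u = ∑ j ∈ T', c j u := by
  set Q : Finset (ℕ × ℕ) := (S ×ˢ T).filter (fun q => q.1 ≤ q.2) with hQ
  set m := S.min' hne with hm
  have hmS : m ∈ S := Finset.min'_mem _ _
  have hQm : ∀ q ∈ Q, m ≤ q.1 ∧ q.1 ≤ q.2 ∧ q.2 ≤ n := by
    intro q hq
    rw [hQ, mem_filter, mem_product] at hq
    exact ⟨Finset.min'_le _ _ hq.1.1, hq.2, hT _ hq.1.2⟩
  refine ⟨(range (n + 1)).filter (fun j => Odd (Q.filter (fun q => q.2 - q.1 = j)).card), ?_, ?_, ?_⟩
  · rw [mem_filter, mem_range]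
    refine ⟨by omega, ?_⟩
    have h1 : Q.filter (fun q => q.2 - q.1 = n - m) = {(m, n)} := by
      ext ⟨a, t⟩
      rw [mem_filter, mem_singleton]
      constructor
      · rintro ⟨h2, h3⟩
        have h4 := hQm _ h2
        simp only at h3 h4
        have h5 := hS m hmS
        rw [Prod.mk.injEq]
        omega
      · intro h2
        rw [Prod.mk.injEq] at h2
        obtain ⟨rfl, rfl⟩ := h2
        refine ⟨?_, rfl⟩
        rw [hQ, mem_filter, mem_product]
        exact ⟨⟨hmS, hn⟩, hS _ hmS⟩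
    rw [h1, card_singleton]
    exact odd_one
  · intro j hj
    rw [mem_filter] at hj
    have h1 : (Q.filter (fun q => q.2 - q.1 = j)).Nonempty := by
      rw [← card_pos]
      exact hj.2.pos
    obtain ⟨q, hq⟩ := h1
    rw [mem_filter] at hq
    have h4 := hQm _ hq.1
    omega
  · intro c u
    have h1 : ∑ a ∈ S, Cof c T a u = ∑ q ∈ Q, c (q.2 - q.1) u := by
      rw [hQ, sum_filter, sum_product]
      refine sum_congr rfl fun a _ => ?_
      unfold Cof
      rw [sum_filter]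
    rw [h1, ← sum_fiberwise_of_maps_to (s := Q) (t := range (n + 1)) (g := fun q => q.2 - q.1)
      (fun q hq => by
        have := hQm q hq
        rw [mem_range]
        omega), sum_filter]
    refine sum_congr rfl fun j _ => ?_
    have h2 : ∑ q ∈ Q.filter (fun q => q.2 - q.1 = j), c (q.2 - q.1) u =
        (Q.filter (fun q => q.2 - q.1 = j)).card • c j u := by
      rw [← sum_const]
      refine sum_congr rfl fun q hq => ?_
      rw [(mem_filter.1 hq).2]
    rw [h2, nsmul_eq_mul]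
    split_ifs with h3
    · obtain ⟨k, hk⟩ := h3
      rw [hk]
      push_cast
      rw [show (2 : ZMod 2) = 0 from by decide]
      ring
    · rw [Nat.not_odd_iff_even] at h3
      obtain ⟨k, hk⟩ := h3
      rw [hk, ← two_mul]
      push_cast
      rw [show (2 : ZMod 2) = 0 from by decide]
      ring

lemma fac_eq (θ : ℕ → ℝ) (a : ℕ) (z : ZMod 2) : fac θ a z = θ a * sg z + (1 - θ a) := by
  unfold fac
  rcases zmod2 z with rfl | rfl
  · rw [if_neg (by decide), sg_zero]; ring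
  · rw [if_pos rfl, sg_one]; ring

theorem t_L1 (hfub : S_FUB) (hexp : S_EXP) : S_L1 := by
  intro Ω _ P _ ξ θ c hC hL n 𝒜 β hβ hA hB T hn hT
  refine (hexp Ω P ξ θ c hC hL n T 𝒜 hn hT hA).trans ?_
  change ∫ ω, ∏ a ∈ 𝒜, fac θ a (Cof c T a (bits ξ ω)) ∂P ≤ _
  set W : Finset ℕ → ℝ := fun S => (∏ a ∈ S, θ a) * ∏ a ∈ 𝒜 \ S, (1 - θ a) with hW
  have hW0 : ∀ S, 0 ≤ W S := fun S => mul_nonneg (prod_nonneg fun a _ => (hC.nonneg a).1)
    (prod_nonneg fun a _ => by linarith [(hC.nonneg a).2])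
  have hWs : ∑ S ∈ 𝒜.powerset, W S = 1 := by
    have := Finset.prod_add θ (fun a => 1 - θ a) 𝒜
    simp only [hW]
    rw [← this]
    exact prod_eq_one fun a _ => by ring
  have hexpand : ∀ ω, ∏ a ∈ 𝒜, fac θ a (Cof c T a (bits ξ ω)) =
      ∑ S ∈ 𝒜.powerset, W S * sg (∑ a ∈ S, Cof c T a (bits ξ ω)) := by
    intro ω
    rw [prod_congr rfl fun a _ => fac_eq θ a (Cof c T a (bits ξ ω)),
      Finset.prod_add (fun a => θ a * sg (Cof c T a (bits ξ ω))) (fun a => 1 - θ a) 𝒜]
    refine sum_congr rfl fun S _ => ?_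
    rw [prod_mul_distrib, sg_sum S]
    simp only [hW]
    ring
  have hint : ∀ S : Finset ℕ, Integrable (fun ω => sg (∑ a ∈ S, Cof c T a (bits ξ ω))) P := by
    intro S
    refine int_of hfub hC.meas hC.ind (fun u => sg (∑ a ∈ S, Cof c T a u)) (n + 1) fun u => ?_
    congr 1
    refine sum_congr rfl fun a _ => Cof_cut hL T hT (by omega) u
  have h1 : ∫ ω, ∏ a ∈ 𝒜, fac θ a (Cof c T a (bits ξ ω)) ∂P =
      ∑ S ∈ 𝒜.powerset, W S * ∫ ω, sg (∑ a ∈ S, Cof c T a (bits ξ ω)) ∂P := by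
    rw [integral_congr_ae (ae_of_all _ hexpand), integral_finsetSum _ fun S _ => (hint S).const_mul _]
    refine sum_congr rfl fun S _ => ?_
    rw [integral_const_mul]
  rw [h1]
  have h2 : ∀ S ∈ 𝒜.powerset, W S * ∫ ω, sg (∑ a ∈ S, Cof c T a (bits ξ ω)) ∂P ≤
      (if S = ∅ then ∏ a ∈ 𝒜, (1 - θ a) else 0) + W S * β := by
    intro S hS
    rw [mem_powerset] at hS
    by_cases h3 : S = ∅
    · subst h3
      rw [if_pos rfl]
      simp only [sum_empty, sg_zero, integral_const, probReal_univ, smul_eq_mul, mul_one]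
      have h4 : W ∅ = ∏ a ∈ 𝒜, (1 - θ a) := by
        simp only [hW, prod_empty, one_mul, sdiff_empty]
      have h5 := mul_nonneg (hW0 ∅) hβ
      linarith
    · rw [if_neg h3, zero_add]
      have hne : S.Nonempty := nonempty_iff_ne_empty.2 h3
      obtain ⟨T', h4, h5, h6⟩ := pairs_sum S T hne hn hT fun a ha => (hA a (hS ha)).2.le
      have h7 := hB _ (hS (Finset.min'_mem S hne)) T' h4 h5
      simp only [h6]
      exact mul_le_mul_of_nonneg_left ((le_abs_self _).trans h7) (hW0 S)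
  refine (sum_le_sum h2).trans ?_
  rw [sum_add_distrib, sum_ite_eq' 𝒜.powerset ∅, if_pos (empty_mem_powerset _), ← sum_mul, hWs,
    one_mul]

end Pool.Agent.D0H10.RP
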