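import Pool.Agent.D0H10.RP.Stm
import Pool.Agent.D0H98.PS.As

/-! # Almost sure bounds from second moments -/

set_option autoImplicit false

open scoped Classical

namespace Pool.Agent.D0H10.RP

open MeasureTheory ProbabilityTheory Filter Finset

/-- the sum of the squares of the sums over the dyadic subintervals of `[0, 2^k)` -/
noncomputable def QQ (g : ℕ → ℝ) (k : ℕ) : ℝ :=
  ∑ j ∈ range (k + 1), ∑ i ∈ range (2 ^ (k - j)), (∑ n ∈ Ico (i * 2 ^ j) ((i + 1) * 2 ^ j), g n) ^ 2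

lemma QQ_nonneg (g : ℕ → ℝ) (k : ℕ) : 0 ≤ QQ g k :=
  sum_nonneg fun _ _ => sum_nonneg fun _ _ => sq_nonneg _

/-- an initial segment is a union of at most one dyadic interval of each length -/
lemma seg (g : ℕ → ℝ) (k : ℕ) : ∀ j ≤ k, ∀ N, N < 2 ^ k → 2 ^ j ∣ N →
    |∑ n ∈ range N, g n| ≤ ∑ l ∈ Ico j (k + 1),
      Real.sqrt (∑ i ∈ range (2 ^ (k - l)), (∑ n ∈ Ico (i * 2 ^ l) ((i + 1) * 2 ^ l), g n) ^ 2) := by
  intro j hj
  induction hd : k - j generalizing j with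
  | zero =>
    intro N hN hdiv
    have hjk : j = k := by omega
    subst hjk
    have : N = 0 := Nat.eq_zero_of_dvd_of_lt hdiv hN
    subst this
    simp only [range_zero, sum_empty, abs_zero]
    exact sum_nonneg fun _ _ => Real.sqrt_nonneg _
  | succ d ih =>
    intro N hN hdiv
    have hjk : j < k := by omega
    have ih' := ih (j + 1) (by omega) (by omega)
    rw [sum_eq_sum_Ico_succ_bot (by omega)]
    obtain ⟨q, rfl⟩ := hdiv
    rcases Nat.even_or_odd q with ⟨r, hr⟩ | ⟨r, hr⟩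
    · have h1 := ih' (2 ^ j * q) hN ⟨r, by rw [hr, pow_succ]; ring⟩
      have h2 : 0 ≤ Real.sqrt (∑ i ∈ range (2 ^ (k - j)),
        (∑ n ∈ Ico (i * 2 ^ j) ((i + 1) * 2 ^ j), g n) ^ 2) := Real.sqrt_nonneg _
      linarith
    · have e1 : 2 ^ j * q = 2 * r * 2 ^ j + 2 ^ j := by rw [hr]; ring
      have h1 := ih' (2 * r * 2 ^ j)
        (lt_of_le_of_lt (by rw [e1]; exact Nat.le_add_right _ _) hN) ⟨r, by rw [pow_succ]; ring⟩
      have h2 : ∑ n ∈ range (2 ^ j * q), g n = ∑ n ∈ range (2 * r * 2 ^ j), g n +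
          ∑ n ∈ Ico (2 * r * 2 ^ j) ((2 * r + 1) * 2 ^ j), g n := by
        rw [e1, show 2 * r * 2 ^ j + 2 ^ j = (2 * r + 1) * 2 ^ j by ring]
        exact (sum_range_add_sum_Ico g (Nat.mul_le_mul_right _ (by omega))).symm
      have h3 : |∑ n ∈ Ico (2 * r * 2 ^ j) ((2 * r + 1) * 2 ^ j), g n| ≤
          Real.sqrt (∑ i ∈ range (2 ^ (k - j)),
            (∑ n ∈ Ico (i * 2 ^ j) ((i + 1) * 2 ^ j), g n) ^ 2) := by
        refine Real.abs_le_sqrt ?_
        refine single_le_sum (f := fun i => (∑ n ∈ Ico (i * 2 ^ j) ((i + 1) * 2 ^ j), g n) ^ 2)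
          (fun _ _ => sq_nonneg _) ?_
        rw [mem_range]
        have e2 : 2 ^ k = 2 ^ (k - j) * 2 ^ j := by rw [← pow_add]; congr 1; omega
        rw [e1, e2] at hN
        by_contra hcon
        have := Nat.mul_le_mul_right (2 ^ j) (not_lt.1 hcon)
        exact absurd (lt_of_le_of_lt (this.trans (Nat.le_add_right _ _)) hN) (lt_irrefl _)
      rw [h2]
      calc |∑ n ∈ range (2 * r * 2 ^ j), g n + ∑ n ∈ Ico (2 * r * 2 ^ j) ((2 * r + 1) * 2 ^ j), g n| ≤
          |∑ n ∈ range (2 * r * 2 ^ j), g n| +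
            |∑ n ∈ Ico (2 * r * 2 ^ j) ((2 * r + 1) * 2 ^ j), g n| := abs_add_le _ _
        _ ≤ _ := by linarith

lemma seg_le (g : ℕ → ℝ) (k N : ℕ) (hN : N < 2 ^ k) :
    |∑ n ∈ range N, g n| ≤ (k + 1) * Real.sqrt (QQ g k) := by
  refine (seg g k 0 (Nat.zero_le _) N hN (one_dvd _)).trans ?_
  have h1 : ∀ l ∈ Ico 0 (k + 1), Real.sqrt (∑ i ∈ range (2 ^ (k - l)),
      (∑ n ∈ Ico (i * 2 ^ l) ((i + 1) * 2 ^ l), g n) ^ 2) ≤ Real.sqrt (QQ g k) := by
    intro l hl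
    rw [mem_Ico] at hl
    refine Real.sqrt_le_sqrt ?_
    unfold QQ
    exact single_le_sum (f := fun j => ∑ i ∈ range (2 ^ (k - j)),
      (∑ n ∈ Ico (i * 2 ^ j) ((i + 1) * 2 ^ j), g n) ^ 2)
      (fun _ _ => sum_nonneg fun _ _ => sq_nonneg _) (mem_range.2 hl.2)
  refine (sum_le_sum h1).trans ?_
  rw [sum_const, Nat.card_Ico, nsmul_eq_mul]
  push_cast
  simp

theorem t_MEN : S_MEN := by
  intro Ω _ P _ g hm hg ⟨C, hC, hmom⟩ ε hε
  have hint : ∀ I : Finset ℕ, Integrable (fun ω => (∑ n ∈ I, g n ω) ^ 2) P := by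
    intro I
    refine Integrable.of_bound (C := (I.card : ℝ) ^ 2)
      ((measurable_fun_sum _ fun n _ => hm n).pow_const 2).aestronglyMeasurable
      (ae_of_all _ fun ω => ?_)
    rw [Real.norm_eq_abs, abs_pow]
    have h1 : |∑ n ∈ I, g n ω| ≤ I.card := by
      refine (abs_sum_le_sum_abs _ _).trans ?_
      refine (sum_le_sum fun n _ => hg n ω).trans ?_
      simp
    gcongr
  have hQint : ∀ k, Integrable (fun ω => QQ (fun n => g n ω) k) P := by
    intro k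
    unfold QQ
    exact integrable_finsetSum _ fun j _ => integrable_finsetSum _ fun i _ => hint _
  have hQ : ∀ k, ∫ ω, QQ (fun n => g n ω) k ∂P ≤ (k + 1) * (C * 2 ^ k) := by
    intro k
    unfold QQ
    rw [integral_finsetSum _ fun j _ => integrable_finsetSum _ fun i _ => hint _]
    have h1 : ∀ j ∈ range (k + 1), ∫ ω, ∑ i ∈ range (2 ^ (k - j)),
        (∑ n ∈ Ico (i * 2 ^ j) ((i + 1) * 2 ^ j), g n ω) ^ 2 ∂P ≤ C * 2 ^ k := by
      intro j hj
      rw [mem_range] at hj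
      rw [integral_finsetSum _ fun i _ => hint _]
      have h2 : ∀ i ∈ range (2 ^ (k - j)),
          ∫ ω, (∑ n ∈ Ico (i * 2 ^ j) ((i + 1) * 2 ^ j), g n ω) ^ 2 ∂P ≤ C * 2 ^ j := by
        intro i _
        refine (hmom _).trans (le_of_eq ?_)
        rw [Nat.card_Ico, show (i + 1) * 2 ^ j - i * 2 ^ j = 2 ^ j by
          rw [add_mul, one_mul, Nat.add_sub_cancel_left]]
        push_cast
        rfl
      refine (sum_le_sum h2).trans (le_of_eq ?_)
      rw [sum_const, card_range, nsmul_eq_mul]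
      push_cast
      have e : (2 : ℝ) ^ k = 2 ^ (k - j) * 2 ^ j := by rw [← pow_add]; congr 1; omega
      rw [e]
      ring
    refine (sum_le_sum h1).trans (le_of_eq ?_)
    rw [sum_const, card_range, nsmul_eq_mul]
    push_cast
    rfl
  set ρ : ℝ := (2 : ℝ) ^ (ε) with hρ
  have hρ1 : 1 < ρ := Real.one_lt_rpow (by norm_num) hε
  -- `Q_k <= 2^k rho^k` eventually
  have hsum : Summable (fun k : ℕ => ((k : ℝ) + 1) * C * (1 / ρ) ^ k) := by
    have h1 : ‖(1 / ρ : ℝ)‖ < 1 := by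
      rw [Real.norm_of_nonneg (by positivity), div_lt_one (by linarith)]
      exact hρ1
    have h2 := summable_pow_mul_geometric_of_norm_lt_one 1 h1
    have h3 := summable_geometric_of_norm_lt_one h1
    refine ((h2.add h3).mul_left C).congr fun k => ?_
    rw [pow_one]
    ring
  have hae := Pool.Agent.D0H98.PS.ae_zero (P := P)
    (fun k ω => QQ (fun n => g n ω) k / (2 ^ k * ρ ^ k))
    (fun k ω => div_nonneg (QQ_nonneg _ _) (by positivity))
    (fun k => (hQint k).div_const _) _ hsum (fun k => by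
      rw [integral_div, div_le_iff₀ (by positivity)]
      refine (hQ k).trans (le_of_eq ?_)
      have hρ0 : ρ ≠ 0 := by positivity
      rw [one_div_pow]
      field_simp)
  filter_upwards [hae] with ω hω
  have h1 : ∀ᶠ k : ℕ in atTop, QQ (fun n => g n ω) k / (2 ^ k * ρ ^ k) ≤ 1 :=
    hω.eventually_le_const one_pos
  -- `4 (k+1)^2 2^k rho^k <= (2^(k-1))^(1 + 2 eps)`
  have h2 : ∀ᶠ k : ℕ in atTop, ((k : ℝ) + 2) ^ 2 * (2 * ρ) ≤ ρ ^ k := by
    have h3 : Tendsto (fun k : ℕ => ((k : ℝ) + 2) ^ 2 * (2 * ρ) / ρ ^ k) atTop (nhds 0) := by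
      have a1 := tendsto_pow_const_div_const_pow_of_one_lt 2 hρ1
      have a2 := tendsto_pow_const_div_const_pow_of_one_lt 1 hρ1
      have a3 := tendsto_pow_const_div_const_pow_of_one_lt 0 hρ1
      have a4 := ((a1.add (a2.const_mul 4)).add (a3.const_mul 4)).const_mul (2 * ρ)
      simp only [mul_zero, add_zero] at a4
      refine a4.congr fun k => ?_
      have hρ0 : ρ ^ k ≠ 0 := by positivity
      field_simp
      ring
    have h4 := h3.eventually_le_const one_pos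
    filter_upwards [h4] with k hk
    rwa [div_le_one (by positivity)] at hk
  obtain ⟨k1, hk1⟩ := eventually_atTop.1 (h1.and h2)
  refine eventually_atTop.2 ⟨2 ^ (k1 + 1), fun N hN => ?_⟩
  have hN1 : 0 < N := lt_of_lt_of_le (by positivity) hN
  set l := Nat.log 2 N with hl
  have hl1 : 2 ^ l ≤ N := Nat.pow_log_le_self 2 hN1.ne'
  have hl2 : N < 2 ^ (l + 1) := Nat.lt_pow_succ_log_self (by norm_num) N
  have hl3 : k1 + 1 ≤ l := (Nat.le_log_iff_pow_le (by norm_num) hN1.ne').2 hN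
  have hb := seg_le (fun n => g n ω) (l + 1) N hl2
  have hc := (hk1 (l + 1) (by omega)).1
  have hd := (hk1 l (by omega)).2
  rw [div_le_one (by positivity)] at hc
  have hNR : (0 : ℝ) < N := by exact_mod_cast hN1
  refine hb.trans ?_
  have e1 : ((N : ℝ) ^ ((1 : ℝ) / 2 + ε)) = Real.sqrt ((N : ℝ) * ((N : ℝ) ^ ε) ^ 2) := by
    rw [Real.rpow_add hNR, ← Real.sqrt_eq_rpow, Real.sqrt_mul hNR.le, Real.sqrt_sq (by positivity)]
  have e2 : (((l + 1 : ℕ) : ℝ) + 1) * Real.sqrt (QQ (fun n => g n ω) (l + 1)) =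
      Real.sqrt ((((l + 1 : ℕ) : ℝ) + 1) ^ 2 * QQ (fun n => g n ω) (l + 1)) := by
    rw [Real.sqrt_mul (by positivity), Real.sqrt_sq (by positivity)]
  rw [e1, e2]
  refine Real.sqrt_le_sqrt ?_
  have f1 : (2 : ℝ) ^ l ≤ N := by exact_mod_cast hl1
  have f2 : ρ ^ l ≤ (N : ℝ) ^ ε := by
    have : ρ ^ l = ((2 : ℝ) ^ l) ^ ε := by
      rw [hρ, ← Real.rpow_natCast, ← Real.rpow_mul (by norm_num), mul_comm,
        Real.rpow_mul (by norm_num), Real.rpow_natCast]
    rw [this]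
    exact Real.rpow_le_rpow (by positivity) f1 hε.le
  have e3 : (((l + 1 : ℕ) : ℝ) + 1) = (l : ℝ) + 2 := by push_cast; ring
  rw [e3]
  calc ((l : ℝ) + 2) ^ 2 * QQ (fun n => g n ω) (l + 1) ≤ ((l : ℝ) + 2) ^ 2 * (2 ^ (l + 1) * ρ ^ (l + 1)) := by
        gcongr
    _ = 2 ^ l * (((l : ℝ) + 2) ^ 2 * (2 * ρ)) * ρ ^ l := by rw [pow_succ, pow_succ]; ring
    _ ≤ 2 ^ l * ρ ^ l * ρ ^ l := by gcongr
    _ = 2 ^ l * (ρ ^ l) ^ 2 := by ring
    _ ≤ N * ((N : ℝ) ^ ε) ^ 2 := by gcongr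

end Pool.Agent.D0H10.RP
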