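import Pool.Agent.D0H10.RP.Stm
import Pool.Agent.R459.Nbhd

/-! # Goldbach pairs -/

set_option autoImplicit false

open scoped Classical

namespace Pool.Agent.D0H10.RP

open Finset Filter
open Pool.Agent.H373R2.T7 (pnt_lam lam1 lam1_eq ev_log')
open Pool.Agent.W93.PG (WinP cnt)
open Pool.Agent.H560R3.GB (sing)

/-- the number of primes in `(n / 2, 9 n / 10]` -/
lemma card_primes : ∃ n0 : ℕ, ∀ n : ℕ, n0 ≤ n →
    0.3 * (n : ℝ) / Real.log n ≤ (((Ioc (n / 2) (9 * n / 10)).filter Nat.Prime).card : ℝ) := by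
  obtain ⟨C, N1, hC, hp⟩ := pnt_lam 1
  obtain ⟨n1, hn1⟩ := ev_log' 1 100
  obtain ⟨n2, hn2⟩ := eventually_atTop.1 ((Real.tendsto_log_atTop.comp
    tendsto_natCast_atTop_atTop).eventually_ge_atTop (200 * C))
  refine ⟨3 * N1 + n1 + n2 + 1000, fun n hn => ?_⟩
  obtain ⟨A, hA⟩ : ∃ A, A = n / 2 := ⟨_, rfl⟩
  obtain ⟨B, hB⟩ : ∃ B, B = 9 * n / 10 := ⟨_, rfl⟩
  rw [← hA, ← hB]
  have a1 := hp A (by omega)
  have b1 := hp B (by omega)
  rw [lam1_eq, pow_one] at a1 b1
  have l1 := hn1 n (by omega)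
  have l2 : 200 * C ≤ Real.log n := hn2 n (by omega)
  rw [pow_one] at l1
  have hn0 : (1000 : ℝ) ≤ n := by exact_mod_cast (by omega : 1000 ≤ n)
  have hss : √(n : ℝ) * √(n : ℝ) = n := Real.mul_self_sqrt (by linarith)
  have hs0 : 30 ≤ √(n : ℝ) := by
    rw [Real.le_sqrt (by norm_num) (by linarith)]
    linarith
  have hAn : (A : ℝ) ≤ n / 2 := by
    rw [hA]; exact Nat.cast_div_le
  have hAn2 : (n : ℝ) / 2 - 1 ≤ A := by
    have : n ≤ 2 * A + 1 := by omega
    have : (n : ℝ) ≤ 2 * A + 1 := by exact_mod_cast this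
    linarith
  have hBn : (B : ℝ) ≤ n := by exact_mod_cast (by omega : B ≤ n)
  have hBn2 : 0.9 * (n : ℝ) - 1 ≤ B := by
    have : 9 * n ≤ 10 * B + 9 := by omega
    have : 9 * (n : ℝ) ≤ 10 * B + 9 := by exact_mod_cast this
    linarith
  have hlog : 0 < Real.log n := by
    have : 0 < 200 * C := by positivity
    linarith
  have hA1 : √(n : ℝ) ≤ A := by nlinarith
  have hlA : Real.log n / 2 ≤ Real.log A := by
    have h1 : Real.log (√(n : ℝ)) = Real.log n / 2 := Real.log_sqrt (by linarith)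
    rw [← h1]
    exact Real.log_le_log (by linarith) hA1
  have hlB : Real.log n / 2 ≤ Real.log B := by
    refine hlA.trans (Real.log_le_log (by linarith) ?_)
    exact_mod_cast (by omega : A ≤ B)
  have eA : C * ((A : ℝ) / Real.log A) ≤ 0.01 * n := by
    have h1 : (A : ℝ) / Real.log A ≤ n / (Real.log n / 2) :=
      div_le_div₀ (by linarith) (by linarith) (by positivity) hlA
    calc C * ((A : ℝ) / Real.log A) ≤ C * (n / (Real.log n / 2)) := by gcongr
      _ = n * (2 * C) / Real.log n := by field_simp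
      _ ≤ 0.01 * n := by
        rw [div_le_iff₀ hlog]
        nlinarith
  have eB : C * ((B : ℝ) / Real.log B) ≤ 0.01 * n := by
    have h1 : (B : ℝ) / Real.log B ≤ n / (Real.log n / 2) :=
      div_le_div₀ (by linarith) hBn (by positivity) hlB
    calc C * ((B : ℝ) / Real.log B) ≤ C * (n / (Real.log n / 2)) := by gcongr
      _ = n * (2 * C) / Real.log n := by field_simp
      _ ≤ 0.01 * n := by
        rw [div_le_iff₀ hlog]
        nlinarith
  have t1 := Chebyshev.theta_le_psi (A : ℝ)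
  have t2 := Chebyshev.psi_sub_theta_le (x := (B : ℝ)) (by linarith)
  have t3 : 2 * √(B : ℝ) * Real.log B ≤ 0.02 * n := by
    have h1 : √(B : ℝ) ≤ √(n : ℝ) := Real.sqrt_le_sqrt hBn
    have h2 : Real.log B ≤ Real.log n := Real.log_le_log (by linarith) hBn
    have h3 : 0 ≤ Real.log B := by linarith
    calc 2 * √(B : ℝ) * Real.log B ≤ 2 * √(n : ℝ) * Real.log n := by gcongr
      _ ≤ 0.02 * n := by nlinarith
  rw [abs_le] at a1 b1
  have hdiff : 0.3 * (n : ℝ) ≤ Chebyshev.theta (B : ℝ) - Chebyshev.theta (A : ℝ) := by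
    linarith [a1.1, a1.2, b1.1, b1.2]
  have hsum : Chebyshev.theta (B : ℝ) - Chebyshev.theta (A : ℝ) ≤
      (((Ioc A B).filter Nat.Prime).card : ℝ) * Real.log n := by
    unfold Chebyshev.theta
    rw [Nat.floor_natCast, Nat.floor_natCast]
    have hAB : A ≤ B := by omega
    have hU : (Ioc 0 B).filter Nat.Prime = (Ioc 0 A).filter Nat.Prime ∪ (Ioc A B).filter Nat.Prime := by
      rw [← filter_union, Ioc_union_Ioc_eq_Ioc (Nat.zero_le _) hAB]
    have hD : Disjoint ((Ioc 0 A).filter Nat.Prime) ((Ioc A B).filter Nat.Prime) := by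
      rw [disjoint_left]
      intro p h1 h2
      rw [mem_filter, mem_Ioc] at h1 h2
      omega
    rw [hU, sum_union hD, add_sub_cancel_left, ← nsmul_eq_mul, ← sum_const]
    refine sum_le_sum fun p hp => ?_
    rw [mem_filter, mem_Ioc] at hp
    refine Real.log_le_log (by exact_mod_cast hp.2.pos) ?_
    exact_mod_cast (by omega : p ≤ n)
  rw [div_le_iff₀ hlog]
  linarith

theorem t_NT : S_NT := by
  obtain ⟨m0, hm0⟩ := card_primes
  obtain ⟨N0, hN0⟩ := Pool.Agent.TH935.GF.fam_win 1 2 0 2 3 0 le_rfl (1 / 2) (by norm_num)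
    (fun m => WinP (1 / 2) 2 m) (fun m _ _ h => h)
  obtain ⟨n1, hn1⟩ := eventually_atTop.1 ((Real.tendsto_log_atTop.comp
    tendsto_natCast_atTop_atTop).eventually_ge_atTop (10 : ℝ))
  obtain ⟨G, hG⟩ : ∃ G : Set ℕ, ∀ m, m ∈ G ↔ 2 ∣ m ∧ WinP (1 / 2) 2 m :=
    ⟨{m | 2 ∣ m ∧ WinP (1 / 2) 2 m}, fun m => Iff.rfl⟩
  refine ⟨1 / 10, m0 + N0 + n1 + 1000, G, by norm_num, ?_, ?_, ?_⟩
  · intro n hnG hn
    obtain ⟨h2, hw⟩ := (hG n).1 hnG
    have hlog : 10 ≤ Real.log n := hn1 n (by omega)
    have hn0 : (1000 : ℝ) ≤ n := by exact_mod_cast (by omega : 1000 ≤ n)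
    have hy : ((n / 2 : ℕ) : ℝ) ≤ n / 2 := Nat.cast_div_le
    have hy2 : ((n - 1 : ℕ) : ℝ) = n - 1 := by
      rw [Nat.cast_sub (by omega)]; simp
    have h3 := hw (n / 2) (n - 1) (by omega) (by omega) (by
      rw [div_le_iff₀ (by positivity), hy2]
      have : (10 : ℝ) ^ 2 ≤ Real.log n ^ 2 := pow_le_pow_left₀ (by norm_num) hlog 2
      nlinarith)
    have hs := Pool.Agent.W93.GB.one_le_sing n
    have hX : 0 < Real.log n ^ 2 := by positivity
    have h4 : (n : ℝ) / 2 - 1 ≤ ((n - 1 : ℕ) : ℝ) - ((n / 2 : ℕ) : ℝ) := by rw [hy2]; linarith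
    have h5 : 1 / 2 * ((n : ℝ) / 2 - 1) / Real.log n ^ 2 ≤ (cnt n (n / 2) (n - 1) : ℝ) := by
      rw [abs_le] at h3
      have h6 : (((n : ℝ) / 2 - 1) / Real.log n ^ 2) ≤
          sing n * (((n - 1 : ℕ) : ℝ) - ((n / 2 : ℕ) : ℝ)) / Real.log n ^ 2 := by
        gcongr
        nlinarith
      have e : 1 / 2 * ((n : ℝ) / 2 - 1) / Real.log n ^ 2 =
          1 / 2 * (((n : ℝ) / 2 - 1) / Real.log n ^ 2) := by ring
      rw [e]
      linarith [h3.1]
    have h7 : cnt n (n / 2) (n - 1) ≤ (prs n).card := by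
      unfold cnt prs
      refine card_le_card fun p hp => ?_
      rw [mem_filter, mem_Ioc] at hp
      rw [mem_filter, mem_range]
      exact ⟨by omega, by omega, hp.2.1, hp.2.2⟩
    have h8 : (cnt n (n / 2) (n - 1) : ℝ) ≤ ((prs n).card : ℝ) := by exact_mod_cast h7
    refine le_trans ?_ (h5.trans h8)
    refine div_le_div_of_nonneg_right ?_ hX.le
    linarith
  · intro n hn hodd
    have hlog : 10 ≤ Real.log n := hn1 n (by omega)
    have hn0 : (1000 : ℝ) ≤ n := by exact_mod_cast (by omega : 1000 ≤ n)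
    have h1 := hm0 n (by omega)
    -- the exceptions
    set S : Finset ℕ := (Icc 1 n).filter (fun m => ¬ WinP (1 / 2) 2 (2 * m)) with hS
    have h2 : (S.card : ℝ) ≤ n / Real.log n ^ 3 := by
      refine hN0 n (by omega) n (fun m => 2 * m) ?_ ?_ S (filter_subset _ _) ?_
      · intro m hm
        rw [mem_Icc] at hm
        exact ⟨by omega, ⟨m, rfl⟩⟩
      · have he : Pool.Agent.H560R3.GB.energy 1 n (fun m => 2 * m) = n := by
          unfold Pool.Agent.H560R3.GB.energy
          have h3 : (((Fintype.piFinset fun _ : Fin 1 => Icc 1 n) ×ˢ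
              (Fintype.piFinset fun _ : Fin 1 => Icc 1 n)).filter
              (fun q => ∑ i, 2 * (q.1 i) = ∑ i, 2 * (q.2 i))) =
              (Icc 1 n).image (fun m => ((fun _ => m : Fin 1 → ℕ), (fun _ => m : Fin 1 → ℕ))) := by
            ext ⟨f, g⟩
            rw [mem_filter, mem_product, Fintype.mem_piFinset, Fintype.mem_piFinset, mem_image]
            simp only [Finset.univ_unique, Fin.default_eq_zero, Fin.isValue, sum_singleton]
            constructor
            · rintro ⟨⟨h3, h4⟩, h5⟩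
              refine ⟨f 0, h3 0, ?_⟩
              rw [Prod.mk.injEq]
              constructor
              · funext i; rw [Subsingleton.elim i 0]
              · funext i; rw [Subsingleton.elim i 0]; omega
            · rintro ⟨m, hm, h4⟩
              rw [Prod.mk.injEq] at h4
              obtain ⟨rfl, rfl⟩ := h4
              exact ⟨⟨fun _ => hm, fun _ => hm⟩, rfl⟩
          rw [h3, card_image_of_injective, Nat.card_Icc]
          · omega
          · intro a b hab
            have := congrArg (fun q => q.1 0) hab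
            exact this
        rw [he, pow_zero, one_mul]
        norm_num
        rw [sq]
      · intro m hm
        exact (mem_filter.1 hm).2
    have h3 : ((Ioc (n / 2) (9 * n / 10)).filter Nat.Prime).card ≤
        ((range n).filter (fun a => n < 2 * a ∧ 10 * a ≤ 9 * n ∧ a.Prime ∧ n - a ∈ G)).card +
          S.card := by
      have h4 : (Ioc (n / 2) (9 * n / 10)).filter Nat.Prime ⊆
          ((range n).filter (fun a => n < 2 * a ∧ 10 * a ≤ 9 * n ∧ a.Prime ∧ n - a ∈ G)) ∪
            S.image (fun m => n - 2 * m) := by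
        intro a ha
        rw [mem_filter, mem_Ioc] at ha
        obtain ⟨⟨h5, h6⟩, h7⟩ := ha
        have h8 : Odd a := h7.odd_of_ne_two (by omega)
        have h9 : 2 ∣ n - a := (Nat.Odd.sub_odd hodd h8).two_dvd
        rw [mem_union, mem_filter, mem_image]
        by_cases h10 : WinP (1 / 2) 2 (n - a)
        · left
          exact ⟨mem_range.2 (by omega), by omega, by omega, h7, (hG _).2 ⟨h9, h10⟩⟩
        · right
          obtain ⟨m, hm⟩ := h9
          refine ⟨m, ?_, by omega⟩
          rw [hS, mem_filter, mem_Icc, ← hm]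
          exact ⟨⟨by omega, by omega⟩, h10⟩
      exact (card_le_card h4).trans ((card_union_le _ _).trans
        (Nat.add_le_add_left card_image_le _))
    have h4 : (((Ioc (n / 2) (9 * n / 10)).filter Nat.Prime).card : ℝ) ≤
        (((range n).filter (fun a => n < 2 * a ∧ 10 * a ≤ 9 * n ∧ a.Prime ∧ n - a ∈ G)).card : ℝ) +
          (S.card : ℝ) := by exact_mod_cast h3
    have h5 : (n : ℝ) / Real.log n ^ 3 ≤ 0.01 * n / Real.log n := by
      rw [div_le_div_iff₀ (by positivity) (by linarith)]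
      have : (10 : ℝ) ^ 2 ≤ Real.log n ^ 2 := pow_le_pow_left₀ (by norm_num) hlog 2
      have h6 : 0 ≤ (n : ℝ) * Real.log n := by positivity
      nlinarith
    have h6 : 0.3 * (n : ℝ) / Real.log n - 0.01 * n / Real.log n = 0.29 * n / Real.log n := by ring
    have h7 : 1 / 10 * (n : ℝ) / Real.log n ≤ 0.29 * n / Real.log n := by
      gcongr
      norm_num
    linarith
  · intro n hn heven
    have hlog : 10 ≤ Real.log n := hn1 n (by omega)
    have hn0 : (1000 : ℝ) ≤ n := by exact_mod_cast (by omega : 1000 ≤ n)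
    have h1 := hm0 n (by omega)
    have h3 : ((Ioc (n / 2) (9 * n / 10)).filter Nat.Prime).card ≤
        ((range n).filter (fun a => n < 2 * a ∧ 10 * a ≤ 9 * n ∧ a.Prime ∧ Odd (n - a))).card := by
      refine card_le_card fun a ha => ?_
      rw [mem_filter, mem_Ioc] at ha
      obtain ⟨⟨h5, h6⟩, h7⟩ := ha
      have h8 : Odd a := h7.odd_of_ne_two (by omega)
      rw [mem_filter, mem_range]
      refine ⟨by omega, by omega, by omega, h7, ?_⟩
      exact Nat.Even.sub_odd (by omega) heven h8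
    have h4 : (((Ioc (n / 2) (9 * n / 10)).filter Nat.Prime).card : ℝ) ≤
        (((range n).filter (fun a => n < 2 * a ∧ 10 * a ≤ 9 * n ∧ a.Prime ∧ Odd (n - a))).card : ℝ) := by
      exact_mod_cast h3
    refine le_trans ?_ (h1.trans h4)
    gcongr
    norm_num

end Pool.Agent.D0H10.RP
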