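import Pool.Agent.D0H10.RP.L1

/-! # Second moments -/

set_option autoImplicit false

open scoped Classical

namespace Pool.Agent.D0H10.RP

open MeasureTheory ProbabilityTheory Filter Finset
open Pool.Agent.D0H10.PS

theorem t_SM : S_SM := by
  intro Ω _ P _ ξ c hm n₁ hB
  refine ⟨1 + 2 * (n₁ + 1), by positivity, fun w hw I => ?_⟩
  set s : ℕ → Ω → ℝ := fun n ω => sg (c n (bits ξ ω)) with hs
  have hs1 : ∀ n ω, |s n ω| ≤ 1 := fun n ω => (abs_sg _).le
  have hint : ∀ m n, Integrable (fun ω => (w m * s m ω) * (w n * s n ω)) P := by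
    intro m n
    refine Integrable.of_bound (C := 1)
      (((hm m).const_mul _).mul ((hm n).const_mul _)).aestronglyMeasurable
      (ae_of_all _ fun ω => ?_)
    rw [Real.norm_eq_abs, abs_mul, abs_mul, abs_mul]
    have h1 := hw m
    have h2 := hw n
    have h3 := hs1 m ω
    have h4 := hs1 n ω
    have h5 : |w m| * |s m ω| ≤ 1 := mul_le_one₀ h1 (abs_nonneg _) h3
    have h6 : |w n| * |s n ω| ≤ 1 := mul_le_one₀ h2 (abs_nonneg _) h4
    exact mul_le_one₀ h5 (by positivity) h6
  -- a product of two signs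
  have hpair : ∀ m n, m ≤ n → |∫ ω, (w m * s m ω) * (w n * s n ω) ∂P| ≤
      if m = n then 1 else if n₁ ≤ n then 1 / (n : ℝ) ^ 3 else 1 := by
    intro m n hmn
    have h1 : |∫ ω, (w m * s m ω) * (w n * s n ω) ∂P| ≤ |∫ ω, s m ω * s n ω ∂P| := by
      have e : ∫ ω, (w m * s m ω) * (w n * s n ω) ∂P = (w m * w n) * ∫ ω, s m ω * s n ω ∂P := by
        rw [← integral_const_mul]
        refine integral_congr_ae (ae_of_all _ fun ω => ?_)
        simp only
        ring
      rw [e, abs_mul, abs_mul]
      have h2 : |w m| * |w n| ≤ 1 := mul_le_one₀ (hw m) (abs_nonneg _) (hw n)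
      exact mul_le_of_le_one_left (abs_nonneg _) h2
    have h0 : |∫ ω, s m ω * s n ω ∂P| ≤ 1 := by
      rw [← Real.norm_eq_abs]
      refine (norm_integral_le_of_norm_le (integrable_const (1 : ℝ)) (ae_of_all _ fun ω => ?_)).trans ?_
      · rw [Real.norm_eq_abs, abs_mul]
        exact mul_le_one₀ (hs1 m ω) (abs_nonneg _) (hs1 n ω)
      · simp
    refine h1.trans ?_
    split_ifs with h3 h4
    · exact h0
    · have h5 := hB n h4 {m, n} (by simp) (by
        intro t ht
        rw [mem_insert, mem_singleton] at ht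
        omega)
      refine le_trans (le_of_eq ?_) h5
      congr 1
      refine integral_congr_ae (ae_of_all _ fun ω => ?_)
      simp only [hs]
      rw [sum_pair h3, sg_add]
    · exact h0
  -- the row sums
  have hrow : ∀ n, ∑ m ∈ I.filter (· < n), |∫ ω, (w m * s m ω) * (w n * s n ω) ∂P| ≤ n₁ + 1 := by
    intro n
    have hcard : ((I.filter (· < n)).card : ℝ) ≤ n := by
      have h1 : I.filter (· < n) ⊆ range n := by
        intro m hm
        rw [mem_range]
        exact (mem_filter.1 hm).2
      have := card_le_card h1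
      rw [card_range] at this
      exact_mod_cast this
    by_cases h4 : n₁ ≤ n
    · have h5 : ∀ m ∈ I.filter (· < n), |∫ ω, (w m * s m ω) * (w n * s n ω) ∂P| ≤ 1 / (n : ℝ) ^ 3 := by
        intro m hm
        have h6 := (mem_filter.1 hm).2
        have h7 := hpair m n h6.le
        rwa [if_neg h6.ne, if_pos h4] at h7
      refine (sum_le_sum h5).trans ?_
      rw [sum_const, nsmul_eq_mul]
      rcases Nat.eq_zero_or_pos n with hn | hn
      · have : (I.filter (· < n)).card = 0 := by
          rw [hn]; simp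
        rw [this]
        simp
        positivity
      · have hn' : (1 : ℝ) ≤ n := by exact_mod_cast hn
        have h8 : (n : ℝ) * (1 / (n : ℝ) ^ 3) ≤ 1 := by
          rw [mul_one_div, div_le_one (by positivity)]
          calc (n : ℝ) = n ^ 1 := (pow_one _).symm
            _ ≤ n ^ 3 := pow_le_pow_right₀ hn' (by norm_num)
        have h9 : ((I.filter (· < n)).card : ℝ) * (1 / (n : ℝ) ^ 3) ≤ n * (1 / (n : ℝ) ^ 3) :=
          mul_le_mul_of_nonneg_right hcard (by positivity)
        have h10 : (0 : ℝ) ≤ n₁ := Nat.cast_nonneg _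
        linarith
    · have h5 : ∀ m ∈ I.filter (· < n), |∫ ω, (w m * s m ω) * (w n * s n ω) ∂P| ≤ 1 := by
        intro m hm
        have h6 := (mem_filter.1 hm).2
        have h7 := hpair m n h6.le
        rwa [if_neg h6.ne, if_neg h4] at h7
      refine (sum_le_sum h5).trans ?_
      rw [sum_const, nsmul_eq_mul, mul_one]
      have h8 : (n : ℝ) ≤ n₁ := by exact_mod_cast (not_le.1 h4).le
      linarith
  have hexp : ∫ ω, (∑ n ∈ I, w n * s n ω) ^ 2 ∂P =
      ∑ n ∈ I, ∑ m ∈ I, ∫ ω, (w m * s m ω) * (w n * s n ω) ∂P := by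
    have e1 : ∀ ω, (∑ n ∈ I, w n * s n ω) ^ 2 =
        ∑ n ∈ I, ∑ m ∈ I, (w m * s m ω) * (w n * s n ω) := by
      intro ω
      rw [sq, sum_mul_sum, sum_comm]
    rw [integral_congr_ae (ae_of_all _ e1), integral_finsetSum _ fun n _ =>
      integrable_finsetSum _ fun m _ => hint m n]
    refine sum_congr rfl fun n _ => ?_
    rw [integral_finsetSum _ fun m _ => hint m n]
  have hsym : ∀ m n, ∫ ω, (w m * s m ω) * (w n * s n ω) ∂P =
      ∫ ω, (w n * s n ω) * (w m * s m ω) ∂P := by
    intro m n
    exact integral_congr_ae (ae_of_all _ fun ω => mul_comm _ _)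
  change ∫ ω, (∑ n ∈ I, w n * s n ω) ^ 2 ∂P ≤ _
  rw [hexp]
  set J : ℕ → ℕ → ℝ := fun m n => ∫ ω, (w m * s m ω) * (w n * s n ω) ∂P with hJ
  -- split into `m < n`, `m = n`, `m > n`
  have hsplit : ∀ n ∈ I, ∑ m ∈ I, J m n = ∑ m ∈ I.filter (· < n), J m n + J n n +
      ∑ m ∈ I.filter (n < ·), J m n := by
    intro n hn
    have h1 : ∀ m, J m n = (if m < n then J m n else 0) + (if m = n then J m n else 0) +
        (if n < m then J m n else 0) := by
      intro m
      rcases lt_trichotomy m n with h | h | h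
      · simp [h, h.ne, h.not_gt]
      · simp [h]
      · simp [h, h.ne', h.not_gt]
    rw [sum_congr rfl fun m _ => h1 m, sum_add_distrib, sum_add_distrib, ← sum_filter, ← sum_filter,
      ← sum_filter]
    congr 2
    have h2 : I.filter (fun m => m = n) = {n} := by
      ext m
      rw [mem_filter, mem_singleton]
      constructor
      · exact fun h => h.2
      · rintro rfl
        exact ⟨hn, rfl⟩
    rw [h2, sum_singleton]
  rw [sum_congr rfl hsplit, sum_add_distrib, sum_add_distrib]
  have hswap : ∑ n ∈ I, ∑ m ∈ I.filter (n < ·), J m n = ∑ n ∈ I, ∑ m ∈ I.filter (· < n), J m n := by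
    simp only [sum_filter]
    rw [sum_comm]
    refine sum_congr rfl fun n _ => sum_congr rfl fun m _ => ?_
    split_ifs
    · exact hsym n m
    · rfl
  rw [hswap]
  have b1 : ∑ n ∈ I, ∑ m ∈ I.filter (· < n), J m n ≤ ∑ n ∈ I, ((n₁ : ℝ) + 1) := by
    refine sum_le_sum fun n _ => ?_
    refine (sum_le_sum fun m _ => le_abs_self _).trans (hrow n)
  have b2 : ∑ n ∈ I, J n n ≤ ∑ n ∈ I, (1 : ℝ) := by
    refine sum_le_sum fun n _ => ?_
    have := hpair n n le_rfl
    rw [if_pos rfl] at this
    exact (le_abs_self _).trans this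
  rw [sum_const, nsmul_eq_mul] at b1 b2
  nlinarith

end Pool.Agent.D0H10.RP
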