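import Pool.Agent.D0H10.PS.Fin
import Pool.Agent.D0H10.RP.L0
import Pool.Agent.D0H10.RP.L1
import Pool.Agent.D0H10.RP.Sm
import Pool.Agent.D0H10.RP.Men
import Pool.Agent.D0H10.RP.Nt
import Pool.Agent.D0H10.RP.Bb

/-! # Assembly: signed sums, patterns with power saving -/

set_option autoImplicit false

open scoped Classical

namespace Pool.Agent.D0H10.RP

open MeasureTheory ProbabilityTheory Filter Finset Asymptotics
open Pool.Agent.D0H10.PS

theorem all_BB : S_BB :=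
  t_BB (t_L0 Pool.Agent.D0H98.PS.fub (t_EXP Pool.Agent.D0H98.PS.fub))
    (t_L1 Pool.Agent.D0H98.PS.fub (t_EXP Pool.Agent.D0H98.PS.fub)) t_NT

/-- a sign is measurable -/
lemma meas_sg {Ω : Type} [MeasurableSpace Ω] {ξ : ℕ → Ω → ZMod 2} (hm : ∀ a, Measurable (ξ a))
    {c : ℕ → (ℕ → ZMod 2) → ZMod 2} (hc : Lin c) (n : ℕ) :
    Measurable fun ω => sg (c n (bits ξ ω)) := by
  have h1 : (fun ω => sg (c n (bits ξ ω))) =
      (fun v : Fin (n + 1) → ZMod 2 => sg (c n (fun j => if h : j < n + 1 then v ⟨j, h⟩ else 0))) ∘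
        fun ω i => ξ i ω := by
    funext ω
    simp only [Function.comp]
    congr 1
    refine hc.loc n _ _ fun j hj => ?_
    rw [dif_pos (by omega)]
    rfl
  rw [h1]
  exact (measurable_of_finite _).comp (measurable_pi_lambda _ fun i => hm i)

/-- smaller than all powers with an exponent larger than `1/2` -/
def Small (h : ℕ → ℝ) : Prop :=
  ∀ ε : ℝ, 0 < ε → h =O[atTop] fun N : ℕ => (N : ℝ) ^ (1 / 2 + ε)

lemma pow_tend {ε : ℝ} (hε : 0 < ε) : Tendsto (fun N : ℕ => (N : ℝ) ^ ε) atTop atTop :=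
  (tendsto_rpow_atTop hε).comp tendsto_natCast_atTop_atTop

lemma Small.ev {h : ℕ → ℝ} (hh : Small h) {ε : ℝ} (hε : 0 < ε) :
    ∀ᶠ N : ℕ in atTop, |h N| ≤ (N : ℝ) ^ (1 / 2 + ε) := by
  obtain ⟨C, hC⟩ := (hh (ε / 2) (by linarith)).bound
  filter_upwards [hC, (pow_tend (show 0 < ε / 2 by linarith)).eventually_ge_atTop C,
    eventually_gt_atTop 0] with N h1 h2 h3
  have h4 : (0 : ℝ) < N := by exact_mod_cast h3
  rw [Real.norm_eq_abs, Real.norm_of_nonneg (by positivity)] at h1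
  calc |h N| ≤ C * (N : ℝ) ^ (1 / 2 + ε / 2) := h1
    _ ≤ (N : ℝ) ^ (ε / 2) * (N : ℝ) ^ (1 / 2 + ε / 2) := by gcongr
    _ = (N : ℝ) ^ (1 / 2 + ε) := by
      rw [← Real.rpow_add h4]
      congr 1
      ring

lemma Small.of_ev {h : ℕ → ℝ}
    (hh : ∀ k : ℕ, ∀ᶠ N : ℕ in atTop, |h N| ≤ (N : ℝ) ^ ((1 : ℝ) / 2 + 1 / ((k : ℝ) + 1))) :
    Small h := by
  intro ε hε
  obtain ⟨k, hk⟩ := exists_nat_one_div_lt hε
  refine IsBigO.of_bound 1 ?_
  filter_upwards [hh k, eventually_gt_atTop 0] with N h1 h3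
  have h4 : (1 : ℝ) ≤ N := by exact_mod_cast h3
  rw [Real.norm_eq_abs, Real.norm_of_nonneg (by positivity), one_mul]
  exact h1.trans (Real.rpow_le_rpow_of_exponent_le h4 (by linarith))

lemma Small.add {h g : ℕ → ℝ} (hh : Small h) (hg : Small g) : Small (fun N => h N + g N) :=
  fun ε hε => (hh ε hε).add (hg ε hε)

lemma Small.const_mul {h : ℕ → ℝ} (hh : Small h) (C : ℝ) : Small (fun N => C * h N) :=
  fun ε hε => (hh ε hε).const_mul_left C

lemma Small.sum {ι : Type} (s : Finset ι) (h : ι → ℕ → ℝ) (hh : ∀ i ∈ s, Small (h i)) :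
    Small (fun N => ∑ i ∈ s, h i N) :=
  fun ε hε => IsBigO.fun_sum fun i hi => hh i hi ε hε

lemma Small.shift {h : ℕ → ℝ} (hh : Small h) (d : ℕ) : Small (fun N => h (N + d)) := by
  intro ε hε
  have h1 := (hh ε hε).comp_tendsto (tendsto_add_atTop_nat d)
  refine h1.trans (IsBigO.of_bound ((1 + d : ℝ) ^ (1 / 2 + ε)) ?_)
  filter_upwards [eventually_gt_atTop 0] with N h3
  have h4 : (1 : ℝ) ≤ N := by exact_mod_cast h3
  have h5 : ((N + d : ℕ) : ℝ) ≤ (1 + d) * N := by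
    push_cast
    have : (0 : ℝ) ≤ d := Nat.cast_nonneg _
    nlinarith
  simp only [Function.comp]
  rw [Real.norm_of_nonneg (by positivity), Real.norm_of_nonneg (by positivity),
    ← Real.mul_rpow (by positivity) (by positivity)]
  exact Real.rpow_le_rpow (by positivity) h5 (by linarith)

lemma Small.bdd {h : ℕ → ℝ} (hh : ∀ N, |h N| ≤ 1) : Small h := by
  intro ε hε
  refine IsBigO.of_bound 1 ?_
  filter_upwards [eventually_gt_atTop 0] with N h3
  have h4 : (1 : ℝ) ≤ N := by exact_mod_cast h3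
  rw [Real.norm_eq_abs, Real.norm_of_nonneg (by positivity), one_mul]
  exact (hh N).trans (Real.one_le_rpow h4 (by linarith))

/-- the number of the elements of a residue class -/
lemma class_count (M r : ℕ) (hM : 0 < M) (N : ℕ) :
    |(((range N).filter (fun n => n ≡ r [MOD M])).card : ℝ) - N / M| ≤ 1 := by
  have hM' : (0 : ℝ) < M := by exact_mod_cast hM
  have h1 := Nat.count_modEq_card N hM r
  rw [Nat.count_eq_card_filter_range] at h1
  have h2 : ((((range N).filter (fun n => n ≡ r [MOD M])).card : ℕ) : ℝ) =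
      ((N / M : ℕ) : ℝ) + (if r % M < N % M then 1 else 0) := by
    rw [h1]
    push_cast
    rfl
  rw [h2]
  have h3 : (N : ℝ) = M * ((N / M : ℕ) : ℝ) + ((N % M : ℕ) : ℝ) := by
    exact_mod_cast (Nat.div_add_mod N M).symm
  have h4 : ((N % M : ℕ) : ℝ) < M := by exact_mod_cast Nat.mod_lt N hM
  have h5 : (0 : ℝ) ≤ ((N % M : ℕ) : ℝ) := by positivity
  have h6 : (N : ℝ) / M = ((N / M : ℕ) : ℝ) + ((N % M : ℕ) : ℝ) / M := by
    conv_lhs => rw [h3]
    field_simp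
  have h7 : ((N % M : ℕ) : ℝ) / M ≤ 1 := by
    rw [div_le_one hM']; exact h4.le
  have h8 : (0 : ℝ) ≤ ((N % M : ℕ) : ℝ) / M := by positivity
  rw [h6, abs_le]
  split_ifs <;> constructor <;> linarith

/-- **Patterns from characters.** -/
lemma pattern_small (h : ℕ → ZMod 2) (L M r : ℕ) (hM : 0 < M)
    (hs : ∀ s : Fin L → ZMod 2, s ≠ 0 → Small (fun N : ℕ =>
      ∑ n ∈ range N, (if n ≡ r [MOD M] then (1 : ℝ) else 0) * sg (∑ i : Fin L, s i * h (n + i))))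
    (e : Fin L → ZMod 2) :
    Small (fun N : ℕ => (((range N).filter (fun n => n ≡ r [MOD M] ∧
      ∀ i : Fin L, h (n + i) = e i)).card : ℝ) - N / (M * 2 ^ L)) := by
  have e1 : ∀ N : ℕ, (((range N).filter (fun n => n ≡ r [MOD M] ∧
      ∀ i : Fin L, h (n + i) = e i)).card : ℝ) =
      ∑ s : Fin L → ZMod 2, sg (∑ i, s i * e i) / 2 ^ L * ∑ n ∈ range N,
        (if n ≡ r [MOD M] then (1 : ℝ) else 0) * sg (∑ i : Fin L, s i * h (n + i)) := by
    intro N
    rw [card_filter]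
    push_cast
    have e2 : ∀ n, (if n ≡ r [MOD M] ∧ ∀ i : Fin L, h (n + i) = e i then (1 : ℝ) else 0) =
        ∑ s : Fin L → ZMod 2, sg (∑ i, s i * e i) / 2 ^ L *
          ((if n ≡ r [MOD M] then (1 : ℝ) else 0) * sg (∑ i : Fin L, s i * h (n + i))) := by
      intro n
      have := pattern (fun i : Fin L => h (n + i)) e
      by_cases h1 : n ≡ r [MOD M]
      · simp only [h1, true_and, if_true, one_mul]
        rw [this]
        exact sum_congr rfl fun s _ => by ring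
      · simp only [h1, false_and, if_false, zero_mul, mul_zero, sum_const_zero]
    rw [sum_congr rfl fun n _ => e2 n, sum_comm]
    refine sum_congr rfl fun s _ => ?_
    rw [← mul_sum]
  have e3 : ∀ N : ℕ, (((range N).filter (fun n => n ≡ r [MOD M] ∧
      ∀ i : Fin L, h (n + i) = e i)).card : ℝ) - N / (M * 2 ^ L) =
      ∑ s ∈ univ.erase (0 : Fin L → ZMod 2), sg (∑ i, s i * e i) / 2 ^ L * (∑ n ∈ range N,
        (if n ≡ r [MOD M] then (1 : ℝ) else 0) * sg (∑ i : Fin L, s i * h (n + i))) +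
      1 / 2 ^ L * ((((range N).filter (fun n => n ≡ r [MOD M])).card : ℝ) - N / M) := by
    intro N
    rw [e1, ← add_sum_erase univ _ (mem_univ (0 : Fin L → ZMod 2))]
    have e4 : ∑ n ∈ range N, (if n ≡ r [MOD M] then (1 : ℝ) else 0) *
        sg (∑ i : Fin L, (0 : Fin L → ZMod 2) i * h (n + i)) =
        (((range N).filter (fun n => n ≡ r [MOD M])).card : ℝ) := by
      rw [card_filter]
      push_cast
      refine sum_congr rfl fun n _ => ?_
      simp [sg_zero]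
    have e5 : sg (∑ i : Fin L, (0 : Fin L → ZMod 2) i * e i) = 1 := by simp [sg_zero]
    rw [e4, e5]
    have : (0 : ℝ) < M := by exact_mod_cast hM
    have e6 : (N : ℝ) / (M * 2 ^ L) = 1 / 2 ^ L * (N / M) := by field_simp
    rw [e6]
    ring
  have h1 := (Small.sum (univ.erase (0 : Fin L → ZMod 2)) (fun s N => sg (∑ i, s i * e i) / 2 ^ L *
    (∑ n ∈ range N, (if n ≡ r [MOD M] then (1 : ℝ) else 0) *
      sg (∑ i : Fin L, s i * h (n + i)))) (fun s hs' =>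
        (hs s (ne_of_mem_erase hs')).const_mul _)).add
    ((Small.bdd (class_count M r hM)).const_mul (1 / 2 ^ L))
  have e7 : (fun N : ℕ => (((range N).filter (fun n => n ≡ r [MOD M] ∧
      ∀ i : Fin L, h (n + i) = e i)).card : ℝ) - N / (M * 2 ^ L)) = _ := funext e3
  rw [e7]
  exact h1

/-- **The signed sums.** -/
theorem all_sums : ∀ (Ω : Type) [MeasurableSpace Ω] (P : Measure Ω) [IsProbabilityMeasure P]
    (ξ : ℕ → Ω → ZMod 2) (θ : ℕ → ℝ) (δ : ℝ), δ < 1 / 2 → Coins P ξ θ →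
    ∀ a₀ : ℕ, (∀ a : ℕ, a₀ ≤ a → a.Prime → (a : ℝ) ^ (-δ) ≤ θ a) →
    ∀ c : ℕ → (ℕ → ZMod 2) → ZMod 2, Lin c →
    (∃ C : ℝ, 0 < C ∧ ∀ (w : ℕ → ℝ), (∀ n, |w n| ≤ 1) → ∀ I : Finset ℕ,
      ∫ ω, (∑ n ∈ I, w n * sg (c n (bits ξ ω))) ^ 2 ∂P ≤ C * I.card) ∧
    ∀ (w : ℕ → ℝ), (∀ n, |w n| ≤ 1) → ∀ᵐ ω ∂P, Small fun N =>
      ∑ n ∈ range N, w n * sg (c n (bits ξ ω)) := by
  intro Ω _ P _ ξ θ δ hδ hP a₀ hθ c hc
  obtain ⟨n₁, hn₁⟩ := all_BB Ω P ξ θ δ hδ hP a₀ hθ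
  have hm := meas_sg hP.meas hc
  obtain ⟨C, hC, hC2⟩ := t_SM Ω P ξ c hm n₁ (hn₁ c hc)
  refine ⟨⟨C, hC, hC2⟩, fun w hw => ?_⟩
  have h1 := t_MEN Ω P (fun n ω => w n * sg (c n (bits ξ ω))) (fun n => (hm n).const_mul _)
    (fun n ω => by
      rw [abs_mul]
      exact mul_le_one₀ (hw n) (abs_nonneg _) (abs_sg _).le) ⟨C, hC, fun I => hC2 w hw I⟩
  have h2 : ∀ᵐ ω ∂P, ∀ k : ℕ, ∀ᶠ N : ℕ in atTop,
      |∑ n ∈ range N, w n * sg (c n (bits ξ ω))| ≤ (N : ℝ) ^ ((1 : ℝ) / 2 + 1 / ((k : ℝ) + 1)) := by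
    rw [ae_all_iff]
    intro k
    exact h1 (1 / ((k : ℝ) + 1)) (by positivity)
  filter_upwards [h2] with ω hω
  exact Small.of_ev hω

end Pool.Agent.D0H10.RP
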