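import Pool.Agent.D0H10.PS.Stm

/-!
# Parities of partitions into parts from a set which is random at the primes: statements

Bits `ξ a` (`ξ a = 1`: `a ∈ A`), independent, with `θ a ≤ P(ξ a = 1) ≤ 1 - θ a`, where `θ a ≥ a^(-δ)`
for the large primes and `θ a ≥ 0` (no condition) for all other `a`.
-/

set_option autoImplicit false

open scoped Classical

namespace Pool.Agent.D0H10.RP

open MeasureTheory ProbabilityTheory Filter Finset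
open Pool.Agent.D0H10.PS

/-- independent bits, `θ a ≤ P(ξ a = 1) ≤ 1 - θ a` -/
structure Coins {Ω : Type} [MeasurableSpace Ω] (P : Measure Ω) (ξ : ℕ → Ω → ZMod 2) (θ : ℕ → ℝ) :
    Prop where
  meas : ∀ a, Measurable (ξ a)
  ind : iIndepFun ξ P
  nonneg : ∀ a, 0 ≤ θ a ∧ θ a ≤ 1 / 2
  rate : ∀ a, θ a ≤ P.real {ω | ξ a ω = 1} ∧ P.real {ω | ξ a ω = 1} ≤ 1 - θ a

/-- the expectations of all signs with the largest index `n` are at most `β` -/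
def Bnd {Ω : Type} [MeasurableSpace Ω] (P : Measure Ω) (ξ : ℕ → Ω → ZMod 2)
    (c : ℕ → (ℕ → ZMod 2) → ZMod 2) (n : ℕ) (β : ℝ) : Prop :=
  ∀ T : Finset ℕ, n ∈ T → (∀ t ∈ T, t ≤ n) → |∫ ω, sg (∑ t ∈ T, c t (bits ξ ω)) ∂P| ≤ β

/-- **EXP.** Conditioning on the bits up to `n / 2`: the expectation of a sign is at most the expectation
of a product over any set `𝒜` of the `a ∈ (n / 2, n]`. (Use `S_FUB`, proved: `Pool.Agent.D0H98.PS.fub`, with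
`x = n / 2 + 1`, and `Ex_prod` in `PS.Basic`.) -/
def S_EXP : Prop := ∀ (Ω : Type) [MeasurableSpace Ω] (P : Measure Ω) [IsProbabilityMeasure P]
    (ξ : ℕ → Ω → ZMod 2) (θ : ℕ → ℝ) (c : ℕ → (ℕ → ZMod 2) → ZMod 2), Coins P ξ θ → Lin c →
    ∀ (n : ℕ) (T 𝒜 : Finset ℕ), n ∈ T → (∀ t ∈ T, t ≤ n) → (∀ a ∈ 𝒜, n < 2 * a ∧ a < n) →
    |∫ ω, sg (∑ t ∈ T, c t (bits ξ ω)) ∂P| ≤
      ∫ ω, ∏ a ∈ 𝒜, (if ∑ t ∈ T.filter (a ≤ ·), c (t - a) (bits ξ ω) = 1 then 1 - 2 * θ a else 1) ∂P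

/-- **L1.** From EXP: `1 - 2 θ [C = 1] = (1 - θ) + θ (-1)^C`, expand the product; in the term of `S ≠ ∅`
the largest index is `n - min S`. -/
def S_L1 : Prop := ∀ (Ω : Type) [MeasurableSpace Ω] (P : Measure Ω) [IsProbabilityMeasure P]
    (ξ : ℕ → Ω → ZMod 2) (θ : ℕ → ℝ) (c : ℕ → (ℕ → ZMod 2) → ZMod 2), Coins P ξ θ → Lin c →
    ∀ (n : ℕ) (𝒜 : Finset ℕ) (β : ℝ), 0 ≤ β → (∀ a ∈ 𝒜, n < 2 * a ∧ a < n) →
    (∀ a ∈ 𝒜, Bnd P ξ c (n - a) β) → Bnd P ξ c n (∏ a ∈ 𝒜, (1 - θ a) + β)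

/-- **L0.** From EXP: for `d = n - a` the sum `C_a` is the bit at `d` plus a function of the bits below
`d`; integrate over the bits at the places `n - a` one after the other, beginning with the largest. -/
def S_L0 : Prop := ∀ (Ω : Type) [MeasurableSpace Ω] (P : Measure Ω) [IsProbabilityMeasure P]
    (ξ : ℕ → Ω → ZMod 2) (θ : ℕ → ℝ) (c : ℕ → (ℕ → ZMod 2) → ZMod 2), Coins P ξ θ → Lin c →
    ∀ (n : ℕ) (𝒜 : Finset ℕ), (∀ a ∈ 𝒜, n < 2 * a ∧ a < n) →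
    Bnd P ξ c n (∏ a ∈ 𝒜, (1 - 2 * θ a * θ (n - a)))

/-- **SM.** Second moments of the signed sums. -/
def S_SM : Prop := ∀ (Ω : Type) [MeasurableSpace Ω] (P : Measure Ω) [IsProbabilityMeasure P]
    (ξ : ℕ → Ω → ZMod 2) (c : ℕ → (ℕ → ZMod 2) → ZMod 2),
    (∀ n, Measurable fun ω => sg (c n (bits ξ ω))) →
    ∀ n₁ : ℕ, (∀ n, n₁ ≤ n → Bnd P ξ c n (1 / (n : ℝ) ^ 3)) →
    ∃ C : ℝ, 0 < C ∧ ∀ (w : ℕ → ℝ), (∀ n, |w n| ≤ 1) → ∀ I : Finset ℕ,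
      ∫ ω, (∑ n ∈ I, w n * sg (c n (bits ξ ω))) ^ 2 ∂P ≤ C * I.card

/-- **MEN.** Almost sure bounds from second moments (dyadic intervals). -/
def S_MEN : Prop := ∀ (Ω : Type) [MeasurableSpace Ω] (P : Measure Ω) [IsProbabilityMeasure P]
    (g : ℕ → Ω → ℝ), (∀ n, Measurable (g n)) → (∀ n ω, |g n ω| ≤ 1) →
    (∃ C : ℝ, 0 < C ∧ ∀ I : Finset ℕ, ∫ ω, (∑ n ∈ I, g n ω) ^ 2 ∂P ≤ C * I.card) →
    ∀ ε : ℝ, 0 < ε → ∀ᵐ ω ∂P, ∀ᶠ N : ℕ in atTop,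
      |∑ n ∈ range N, g n ω| ≤ (N : ℝ) ^ ((1 : ℝ) / 2 + ε)

/-- the primes `a` with `n / 2 < a < n` such that `n - a` is a prime -/
noncomputable def prs (n : ℕ) : Finset ℕ :=
  (range n).filter (fun a => n < 2 * a ∧ a.Prime ∧ (n - a).Prime)

/-- **NT.** Goldbach pairs: `G` is the set of the even numbers with many representations. (Exceptional set:
`Pool.Agent.R459.near_even` with `h = 1` and the family `1, ..., N`; `Pool.Agent.W93.PG.WinP`; the number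
of primes in `(n / 2, 9 n / 10]` from the library.) -/
def S_NT : Prop := ∃ (c : ℝ) (n₀ : ℕ) (G : Set ℕ), 0 < c ∧
    (∀ n ∈ G, n₀ ≤ n → c * n / Real.log n ^ 2 ≤ ((prs n).card : ℝ)) ∧
    (∀ n : ℕ, n₀ ≤ n → Odd n → c * n / Real.log n ≤
      (((range n).filter (fun a => n < 2 * a ∧ 10 * a ≤ 9 * n ∧ a.Prime ∧ n - a ∈ G)).card : ℝ)) ∧
    (∀ n : ℕ, n₀ ≤ n → Even n → c * n / Real.log n ≤
      (((range n).filter (fun a => n < 2 * a ∧ 10 * a ≤ 9 * n ∧ a.Prime ∧ Odd (n - a))).card : ℝ))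

/-- **BB.** The bound for all large `n`. From L0, L1 and NT. -/
def S_BB : Prop := ∀ (Ω : Type) [MeasurableSpace Ω] (P : Measure Ω) [IsProbabilityMeasure P]
    (ξ : ℕ → Ω → ZMod 2) (θ : ℕ → ℝ) (δ : ℝ), δ < 1 / 2 → Coins P ξ θ →
    ∀ a₀ : ℕ, (∀ a : ℕ, a₀ ≤ a → a.Prime → (a : ℝ) ^ (-δ) ≤ θ a) →
    ∃ n₁ : ℕ, ∀ c : ℕ → (ℕ → ZMod 2) → ZMod 2, Lin c → ∀ n, n₁ ≤ n → Bnd P ξ c n (1 / (n : ℝ) ^ 3)

end Pool.Agent.D0H10.RP
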